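import Pool.Agent.H34Z.SF.Disc

set_option autoImplicit false
set_option linter.unusedSectionVars false
set_option linter.deprecated false

/-! Classes of transforms and their closure and uniqueness properties. -/

namespace Pool.Agent.H34Z.SF

open MeasureTheory Filter Topology

noncomputable section

/-- transforms of weighted integrable functions on a measure space -/
def GC {Ω : Type} [MeasurableSpace Ω] (μ : Measure Ω) (θ : Ω → ℝ) (S : Set ℝ) (φ : ℝ → ℂ) :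
    Prop :=
  ∃ g : Ω → ℂ, (∀ᶠ s in 𝓝 (0 : ℝ), Integrable (fun x => (Real.exp (s * θ x) : ℂ) * g x) μ) ∧
    (∀ x, θ x ∉ S → g x = 0) ∧ ∀ ω, φ ω = ∫ x, ch th ω (θ x) * g x ∂μ

/-- the continuous class -/
def CC (S : Set ℝ) (φ : ℝ → ℂ) : Prop := GC volume (fun t => t) S φ

/-- the discrete class -/
def DC (S : Set ℝ) (φ : ℝ → ℂ) : Prop :=
  ∃ (ι : Type) (_ : Countable ι) (c : ι → ℂ) (τ : ι → ℝ),
    (∀ᶠ s in 𝓝 (0 : ℝ), Summable fun i => Real.exp (s * τ i) * ‖c i‖) ∧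
    (∀ i, τ i ∉ S → c i = 0) ∧ ∀ ω, φ ω = ∑' i, ch th ω (τ i) * c i

/-- the full class -/
def Cl (S : Set ℝ) (φ : ℝ → ℂ) : Prop :=
  ∃ φ1 φ2, CC S φ1 ∧ DC S φ2 ∧ ∀ ω, φ ω = φ1 ω + φ2 ω

theorem int_zero {Ω : Type} [MeasurableSpace Ω] {μ : Measure Ω} {θ : Ω → ℝ} {g : Ω → ℂ}
    (h : ∀ᶠ s in 𝓝 (0 : ℝ), Integrable (fun x => (Real.exp (s * θ x) : ℂ) * g x) μ) :
    Integrable g μ := by
  simpa using h.self_of_nhds

theorem sum_zero {ι : Type} {c : ι → ℂ} {τ : ι → ℝ}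
    (h : ∀ᶠ s in 𝓝 (0 : ℝ), Summable fun i => Real.exp (s * τ i) * ‖c i‖) :
    Summable fun i => ‖c i‖ := by
  simpa using h.self_of_nhds

theorem int_ch {Ω : Type} [MeasurableSpace Ω] {μ : Measure Ω} {θ : Ω → ℝ} (hθ : Measurable θ)
    {g : Ω → ℂ} (hg : Integrable g μ) (ω : ℝ) : Integrable (fun x => ch th ω (θ x) * g x) μ := by
  refine hg.norm.mono' (((bd_ch th mth ω).1.comp hθ).aestronglyMeasurable.mul hg.1) ?_
  filter_upwards with t
  rw [norm_mul, norm_ch, one_mul]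

theorem sum_ch {ι : Type} {c : ι → ℂ} (τ : ι → ℝ) (hc : Summable fun i => ‖c i‖) (ω : ℝ) :
    Summable fun i => ‖ch th ω (τ i) * c i‖ := by
  simpa [norm_ch] using hc

theorem integral_cnt' {ι : Type} [MeasurableSpace ι] [Countable ι] [MeasurableSingletonClass ι]
    {f : ι → ℂ} (hf : Integrable f Measure.count) : ∫ t, f t ∂Measure.count = ∑' t, f t := by
  rw [integral_countable hf]
  simp

theorem GC.toDC {ι : Type} [MeasurableSpace ι] [Countable ι] [MeasurableSingletonClass ι]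
    {τ : ι → ℝ} {S : Set ℝ} {φ : ℝ → ℂ} (h : GC Measure.count τ S φ) : DC S φ := by
  obtain ⟨g, h1, h2, h3⟩ := h
  refine ⟨ι, inferInstance, g, τ, ?_, h2, fun ω => ?_⟩
  · filter_upwards [h1] with s hs
    simpa [Complex.norm_exp] using integrable_count_iff.1 hs
  · rw [h3, integral_cnt' (int_ch Measurable.of_discrete (int_zero h1) ω)]

theorem toGC {ι : Type} [MeasurableSpace ι] [Countable ι] [MeasurableSingletonClass ι]
    {c : ι → ℂ} {τ : ι → ℝ} {S : Set ℝ} {φ : ℝ → ℂ}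
    (h1 : ∀ᶠ s in 𝓝 (0 : ℝ), Summable fun i => Real.exp (s * τ i) * ‖c i‖)
    (h2 : ∀ i, τ i ∉ S → c i = 0) (h3 : ∀ ω, φ ω = ∑' i, ch th ω (τ i) * c i) :
    GC Measure.count τ S φ := by
  refine ⟨c, ?_, h2, fun ω => ?_⟩
  · filter_upwards [h1] with s hs
    rw [integrable_count_iff]
    simpa [Complex.norm_exp] using hs
  · rw [h3, integral_cnt' (integrable_count_iff.2 (sum_ch τ (sum_zero h1) ω))]

theorem twisted {Ω : Type} [MeasurableSpace Ω] {μ : Measure Ω} [SFinite μ] {θ : Ω → ℝ}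
    (hθ : Measurable θ) (χ : ℝ → ℂ) (hχ : ∀ a b, χ (a + b) = χ a * χ b) {g : Ω → ℂ} {f : ℝ → ℂ}
    (hg : Integrable (fun x => χ (θ x) * g x) μ) (hf : Integrable (fun t => χ t * f t)) :
    Integrable (fun t => χ t * ∫ x, g x * f (t - θ x) ∂μ) ∧
      ∫ t, χ t * ∫ x, g x * f (t - θ x) ∂μ = (∫ x, χ (θ x) * g x ∂μ) * ∫ t, χ t * f t := by
  have hmp : MeasurePreserving (fun p : Ω × ℝ => (id p.1, p.2 - θ p.1)) (μ.prod volume)
      (μ.prod volume) := by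
    refine (MeasurePreserving.id μ).skew_product (g := fun x t => t - θ x) ?_ ?_
    · exact measurable_snd.sub (hθ.comp measurable_fst)
    · filter_upwards with x
      exact (measurePreserving_sub_right volume (θ x)).map_eq
  have h1 := hg.mul_prod hf
  have h2 := hmp.integrable_comp_of_integrable h1
  have e : ∀ t, χ t * ∫ x, g x * f (t - θ x) ∂μ =
      ∫ x, (χ (θ x) * g x) * (χ (t - θ x) * f (t - θ x)) ∂μ := by
    intro t
    rw [← integral_const_mul]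
    congr 1
    funext x
    have : χ t = χ (θ x) * χ (t - θ x) := by rw [← hχ]; congr 1; ring
    rw [this]
    ring
  simp only [e]
  refine ⟨h2.integral_prod_right, ?_⟩
  rw [← integral_prod_mul, ← integral_prod_symm
    (fun p : Ω × ℝ => (χ (θ p.1) * g p.1) * (χ (p.2 - θ p.1) * f (p.2 - θ p.1))) h2]
  have h3 := integral_map (μ := μ.prod volume) (φ := fun p : Ω × ℝ => (id p.1, p.2 - θ p.1))
    hmp.measurable.aemeasurable
    (f := fun z : Ω × ℝ => (χ (θ z.1) * g z.1) * (χ z.2 * f z.2)) (by rw [hmp.map_eq]; exact h1.1)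
  rw [hmp.map_eq] at h3
  exact h3.symm

theorem GC.mul_CC {Ω : Type} [MeasurableSpace Ω] {μ : Measure Ω} [SFinite μ] {θ : Ω → ℝ}
    (hθ : Measurable θ) {S1 S2 S3 : Set ℝ} (hS : ∀ a ∈ S1, ∀ b ∈ S2, a + b ∈ S3) {φ ψ : ℝ → ℂ}
    (h1 : GC μ θ S1 φ) (h2 : CC S2 ψ) : CC S3 (fun ω => φ ω * ψ ω) := by
  obtain ⟨g, g1, g2, g3⟩ := h1
  obtain ⟨f, f1, f2, f3⟩ := h2
  refine ⟨fun t => ∫ x, g x * f (t - θ x) ∂μ, ?_, ?_, fun ω => ?_⟩
  · filter_upwards [g1, f1] with s k1 k2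
    refine (twisted hθ (fun t => (Real.exp (s * t) : ℂ)) (fun a b => ?_) k1 k2).1
    rw [mul_add, Real.exp_add, Complex.ofReal_mul]
  · intro t ht
    have : ∀ x, g x * f (t - θ x) = 0 := by
      intro x
      by_cases k : θ x ∈ S1
      · rw [f2 _ (fun k2 => ht (by simpa using hS _ k _ k2)), mul_zero]
      · rw [g2 x k, zero_mul]
    simp [this]
  · dsimp only
    rw [g3, f3]
    exact (twisted hθ (ch th ω) (ch_add th ω) (int_ch hθ (int_zero g1) ω)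
      (int_ch measurable_id (int_zero f1) ω)).2.symm

theorem GC.add {Ω : Type} [MeasurableSpace Ω] {μ : Measure Ω} {θ : Ω → ℝ} (hθ : Measurable θ)
    {S : Set ℝ} {φ ψ : ℝ → ℂ} (h1 : GC μ θ S φ) (h2 : GC μ θ S ψ) :
    GC μ θ S (fun ω => φ ω + ψ ω) := by
  obtain ⟨g, g1, g2, g3⟩ := h1
  obtain ⟨f, f1, f2, f3⟩ := h2
  refine ⟨fun x => g x + f x, ?_, fun x hx => by simp [g2 x hx, f2 x hx], fun ω => ?_⟩
  · filter_upwards [g1, f1] with s k1 k2
    simpa only [mul_add] using int_add k1 k2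
  · dsimp only
    rw [g3, f3, ← integral_add (int_ch hθ (int_zero g1) ω) (int_ch hθ (int_zero f1) ω)]
    simp only [mul_add]

theorem GC.zero {Ω : Type} [MeasurableSpace Ω] (μ : Measure Ω) (θ : Ω → ℝ) (S : Set ℝ) :
    GC μ θ S (fun _ => 0) :=
  ⟨fun _ => 0, by simp, fun _ _ => rfl, by simp⟩

theorem GC.mono {Ω : Type} [MeasurableSpace Ω] {μ : Measure Ω} {θ : Ω → ℝ} {S S' : Set ℝ}
    (hS : S ⊆ S') {φ : ℝ → ℂ} (h : GC μ θ S φ) : GC μ θ S' φ := by
  obtain ⟨g, g1, g2, g3⟩ := h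
  exact ⟨g, g1, fun x hx => g2 x fun k => hx (hS k), g3⟩

theorem GC.cmul {Ω : Type} [MeasurableSpace Ω] {μ : Measure Ω} {θ : Ω → ℝ} {S : Set ℝ}
    {φ : ℝ → ℂ} (h : GC μ θ S φ) (a : ℂ) : GC μ θ S (fun ω => a * φ ω) := by
  obtain ⟨g, g1, g2, g3⟩ := h
  refine ⟨fun x => a * g x, ?_, fun x hx => by simp [g2 x hx], fun ω => ?_⟩
  · filter_upwards [g1] with s k1
    refine (k1.const_mul a).congr ?_
    filter_upwards with x
    ring
  · dsimp only
    rw [g3, ← integral_const_mul]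
    congr 1
    funext x
    ring

theorem GC.bdd {Ω : Type} [MeasurableSpace Ω] {μ : Measure Ω} {θ : Ω → ℝ} {S : Set ℝ}
    {φ : ℝ → ℂ} (h : GC μ θ S φ) : ∃ C, ∀ ω, ‖φ ω‖ ≤ C := by
  obtain ⟨g, g1, _, g3⟩ := h
  refine ⟨∫ x, ‖g x‖ ∂μ, fun ω => ?_⟩
  rw [g3]
  refine norm_integral_le_of_norm_le (int_zero g1).norm ?_
  filter_upwards with t
  rw [norm_mul, norm_ch, one_mul]

theorem CC.add {S : Set ℝ} {φ ψ : ℝ → ℂ} (h1 : CC S φ) (h2 : CC S ψ) :
    CC S (fun ω => φ ω + ψ ω) := GC.add measurable_id h1 h2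

theorem CC.conj {S S' : Set ℝ} (hS : ∀ a ∈ S, -a ∈ S') {φ : ℝ → ℂ} (h : CC S φ) :
    CC S' (fun ω => (starRingEnd ℂ) (φ ω)) := by
  obtain ⟨f, f1, f2, f3⟩ := h
  refine ⟨fun t => (starRingEnd ℂ) (f (-t)), ?_, fun t ht => ?_, fun ω => ?_⟩
  · have : Tendsto (fun s : ℝ => -s) (𝓝 0) (𝓝 0) := by
      simpa using (continuous_neg (G := ℝ)).tendsto 0
    filter_upwards [this.eventually f1] with s hs
    have k := (Complex.conjCLE.toContinuousLinearMap.integrable_comp hs).comp_neg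
    refine k.congr ?_
    filter_upwards with t
    simp [← Complex.exp_conj]
  · dsimp only
    rw [f2 (-t) (fun k => ht (by simpa using hS _ k)), map_zero]
  · dsimp only
    rw [f3, ← integral_conj, ← integral_neg_eq_self]
    congr 1
    funext t
    rw [map_mul, conj_ch, neg_neg]

theorem DC.add {S : Set ℝ} {φ ψ : ℝ → ℂ} (h1 : DC S φ) (h2 : DC S ψ) :
    DC S (fun ω => φ ω + ψ ω) := by
  obtain ⟨ι, _, c, τ, c1, c2, c3⟩ := h1
  obtain ⟨κ, _, d, υ, d1, d2, d3⟩ := h2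
  refine ⟨ι ⊕ κ, inferInstance, Sum.elim c d, Sum.elim τ υ, ?_, ?_, fun ω => ?_⟩
  · filter_upwards [c1, d1] with s k1 k2
    exact Summable.sum _ k1 k2
  · rintro (i | i) hi
    · exact c2 i hi
    · exact d2 i hi
  · dsimp only
    rw [c3, d3, Summable.tsum_sum]
    · rfl
    · exact (sum_ch τ (sum_zero c1) ω).of_norm
    · exact (sum_ch υ (sum_zero d1) ω).of_norm

theorem DC.mul {S1 S2 S3 : Set ℝ} (hS : ∀ a ∈ S1, ∀ b ∈ S2, a + b ∈ S3) {φ ψ : ℝ → ℂ}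
    (h1 : DC S1 φ) (h2 : DC S2 ψ) : DC S3 (fun ω => φ ω * ψ ω) := by
  obtain ⟨ι, _, c, τ, c1, c2, c3⟩ := h1
  obtain ⟨κ, _, d, υ, d1, d2, d3⟩ := h2
  refine ⟨ι × κ, inferInstance, fun p => c p.1 * d p.2, fun p => τ p.1 + υ p.2, ?_, ?_,
    fun ω => ?_⟩
  · filter_upwards [c1, d1] with s k1 k2
    have := k1.mul_of_nonneg k2 (fun _ => by positivity) (fun _ => by positivity)
    refine this.congr fun p => ?_
    rw [mul_add, Real.exp_add, norm_mul]
    ring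
  · rintro ⟨i, j⟩ h
    by_cases k : τ i ∈ S1
    · simp [d2 j (fun k2 => h (hS _ k _ k2))]
    · simp [c2 i k]
  · dsimp only
    rw [c3, d3, tsum_mul_tsum_of_summable_norm (sum_ch τ (sum_zero c1) ω)
      (sum_ch υ (sum_zero d1) ω)]
    congr 1
    funext p
    rw [ch_add]
    ring

theorem DC.conj {S S' : Set ℝ} (hS : ∀ a ∈ S, -a ∈ S') {φ : ℝ → ℂ} (h : DC S φ) :
    DC S' (fun ω => (starRingEnd ℂ) (φ ω)) := by
  obtain ⟨ι, _, c, τ, c1, c2, c3⟩ := h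
  refine ⟨ι, inferInstance, fun i => (starRingEnd ℂ) (c i), fun i => -τ i, ?_, fun i hi => ?_,
    fun ω => ?_⟩
  · have : Tendsto (fun s : ℝ => -s) (𝓝 0) (𝓝 0) := by
      simpa using (continuous_neg (G := ℝ)).tendsto 0
    filter_upwards [this.eventually c1] with s hs
    simpa using hs
  · dsimp only
    rw [c2 i (fun k => hi (hS _ k)), map_zero]
  · dsimp only
    rw [c3, Complex.conj_tsum]
    congr 1
    funext i
    rw [map_mul, conj_ch]

theorem DC.mono {S S' : Set ℝ} (hS : S ⊆ S') {φ : ℝ → ℂ} (h : DC S φ) : DC S' φ := by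
  obtain ⟨ι, _, c, τ, c1, c2, c3⟩ := h
  exact ⟨ι, inferInstance, c, τ, c1, fun i hi => c2 i fun k => hi (hS k), c3⟩

theorem DC.const {S : Set ℝ} (a : ℂ) (h : (0 : ℝ) ∈ S ∨ a = 0) : DC S (fun _ => a) := by
  refine ⟨Unit, inferInstance, fun _ => a, fun _ => 0, ?_, fun _ k => h.resolve_left k,
    fun ω => ?_⟩
  · filter_upwards with s
    exact Summable.of_finite
  · simp [ch]

theorem DC.mul_CC {S1 S2 S3 : Set ℝ} (hS : ∀ a ∈ S1, ∀ b ∈ S2, a + b ∈ S3) {φ ψ : ℝ → ℂ}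
    (h1 : DC S1 φ) (h2 : CC S2 ψ) : CC S3 (fun ω => φ ω * ψ ω) := by
  obtain ⟨ι, _, c, τ, c1, c2, c3⟩ := h1
  letI : MeasurableSpace ι := ⊤
  haveI : MeasurableSingletonClass ι := ⟨fun _ => trivial⟩
  exact GC.mul_CC Measurable.of_discrete hS (toGC c1 c2 c3) h2

theorem DC.bdd {S : Set ℝ} {φ : ℝ → ℂ} (h : DC S φ) : ∃ C, ∀ ω, ‖φ ω‖ ≤ C := by
  obtain ⟨ι, _, c, τ, c1, c2, c3⟩ := h
  letI : MeasurableSpace ι := ⊤
  haveI : MeasurableSingletonClass ι := ⟨fun _ => trivial⟩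
  exact (toGC c1 c2 c3).bdd

theorem CC.cl {S : Set ℝ} {φ : ℝ → ℂ} (h : CC S φ) : Cl S φ :=
  ⟨φ, fun _ => 0, h, DC.const 0 (Or.inr rfl), by simp⟩

theorem DC.cl {S : Set ℝ} {φ : ℝ → ℂ} (h : DC S φ) : Cl S φ :=
  ⟨fun _ => 0, φ, GC.zero _ _ _, h, by simp⟩

theorem Cl.add {S : Set ℝ} {φ ψ : ℝ → ℂ} (h1 : Cl S φ) (h2 : Cl S ψ) :
    Cl S (fun ω => φ ω + ψ ω) := by
  obtain ⟨a, b, a1, b1, e1⟩ := h1
  obtain ⟨c, d, c1, d1, e2⟩ := h2
  refine ⟨_, _, a1.add c1, b1.add d1, fun ω => ?_⟩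
  dsimp only
  rw [e1, e2]
  ring

theorem Cl.mul_CC {S1 S2 S3 : Set ℝ} (hS : ∀ a ∈ S1, ∀ b ∈ S2, a + b ∈ S3) {φ ψ : ℝ → ℂ}
    (h1 : Cl S1 φ) (h2 : CC S2 ψ) : CC S3 (fun ω => φ ω * ψ ω) := by
  obtain ⟨a, b, a1, b1, e1⟩ := h1
  have := (GC.mul_CC measurable_id hS a1 h2).add (b1.mul_CC hS h2)
  have e : (fun ω => φ ω * ψ ω) = fun ω => a ω * ψ ω + b ω * ψ ω := by
    funext ω
    rw [e1]
    ring
  rw [e]
  exact this

theorem Cl.mul {S1 S2 S3 : Set ℝ} (hS : ∀ a ∈ S1, ∀ b ∈ S2, a + b ∈ S3) {φ ψ : ℝ → ℂ}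
    (h1 : Cl S1 φ) (h2 : Cl S2 ψ) : Cl S3 (fun ω => φ ω * ψ ω) := by
  obtain ⟨c, d, c1, d1, e2⟩ := h2
  have k1 := h1.mul_CC hS c1
  obtain ⟨a, b, a1, b1, e1⟩ := h1
  have k2 := d1.mul_CC (S3 := S3) (fun x hx y hy => by rw [add_comm]; exact hS y hy x hx) a1
  refine ⟨_, _, k1.add k2, b1.mul hS d1, fun ω => ?_⟩
  dsimp only
  rw [e1, e2]
  ring

theorem Cl.conj {S S' : Set ℝ} (hS : ∀ a ∈ S, -a ∈ S') {φ : ℝ → ℂ} (h : Cl S φ) :
    Cl S' (fun ω => (starRingEnd ℂ) (φ ω)) := by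
  obtain ⟨a, b, a1, b1, e1⟩ := h
  refine ⟨_, _, a1.conj hS, b1.conj hS, fun ω => ?_⟩
  dsimp only
  rw [e1, map_add]

theorem Cl.mono {S S' : Set ℝ} (hS : S ⊆ S') {φ : ℝ → ℂ} (h : Cl S φ) : Cl S' φ := by
  obtain ⟨a, b, a1, b1, e1⟩ := h
  exact ⟨a, b, GC.mono hS a1, b1.mono hS, e1⟩

theorem Cl.const {S : Set ℝ} (a : ℂ) (h : (0 : ℝ) ∈ S ∨ a = 0) : Cl S (fun _ => a) :=
  (DC.const a h).cl

theorem Cl.bdd {S : Set ℝ} {φ : ℝ → ℂ} (h : Cl S φ) : ∃ C, ∀ ω, ‖φ ω‖ ≤ C := by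
  obtain ⟨a, b, a1, b1, e1⟩ := h
  obtain ⟨C, hC⟩ := GC.bdd a1
  obtain ⟨C', hC'⟩ := b1.bdd
  exact ⟨C + C', fun ω => by rw [e1]; exact (norm_add_le _ _).trans (add_le_add (hC ω) (hC' ω))⟩

theorem Cl.sum {S : Set ℝ} {ι : Type} (s : Finset ι) {φ : ι → ℝ → ℂ} (h : ∀ i, Cl S (φ i)) :
    Cl S (fun ω => ∑ i ∈ s, φ i ω) := by
  classical
  induction s using Finset.induction_on with
  | empty => simpa using Cl.const (S := S) 0 (Or.inr rfl)
  | insert i s hi ih =>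
    simp only [Finset.sum_insert hi]
    exact (h i).add ih

theorem CC.sum {S : Set ℝ} {ι : Type} (s : Finset ι) {φ : ι → ℝ → ℂ} (h : ∀ i, CC S (φ i)) :
    CC S (fun ω => ∑ i ∈ s, φ i ω) := by
  classical
  induction s using Finset.induction_on with
  | empty =>
    simp only [Finset.sum_empty]
    exact GC.zero _ _ _
  | insert i s hi ih =>
    simp only [Finset.sum_insert hi]
    exact (h i).add ih

/-! ### recurrence and uniqueness -/

theorem exists_U : ∃ U : Ultrafilter ℕ, (U : Filter ℕ) ≤ atTop ∧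
    ∀ t : ℝ, Tendsto (fun k : ℕ => ch th k t) U (𝓝 1) := by
  obtain ⟨U, h1, h2⟩ := mapClusterPt_iff_ultrafilter.1
    (mapClusterPt_one_atTop_pow (G := ℝ → Circle) (fun t => Circle.exp (-t)))
  refine ⟨U, h1, fun t => ?_⟩
  have h3 := ((by fun_prop : Continuous (fun z : Circle => (z : ℂ))).tendsto _).comp
    (tendsto_pi_nhds.1 h2 t)
  refine h3.congr fun k => ?_
  simp only [Function.comp_apply, Pi.pow_apply, Circle.coe_pow, Circle.coe_exp, ch,
    AddMonoidHom.id_apply]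
  rw [← Complex.exp_nat_mul]
  congr 1
  push_cast
  ring

/-- a recurrence ultrafilter -/
def UU : Ultrafilter ℕ := exists_U.choose

theorem ch_add' (a b t : ℝ) : ch th (a + b) t = ch th a t * ch th b t := by
  unfold ch
  rw [← Complex.exp_add]
  congr 1
  push_cast
  ring

theorem DC.lim {S : Set ℝ} {φ : ℝ → ℂ} (h : DC S φ) (ω : ℝ) :
    Tendsto (fun k : ℕ => φ (ω + k)) UU (𝓝 (φ ω)) := by
  obtain ⟨ι, _, c, τ, c1, _, c3⟩ := h
  simp only [c3]
  refine tendsto_tsum_of_dominated_convergence (sum_zero c1) (fun i => ?_) ?_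
  · have := ((exists_U.choose_spec.2 (τ i)).const_mul (ch th ω (τ i))).mul_const (c i)
    simpa only [ch_add', mul_one, UU] using this
  · filter_upwards with k i
    rw [norm_mul, norm_ch, one_mul]

theorem CC.lim {S : Set ℝ} {φ : ℝ → ℂ} (h : CC S φ) (ω : ℝ) :
    Tendsto (fun k : ℕ => φ (ω + k)) UU (𝓝 0) := by
  obtain ⟨f, _, _, f3⟩ := h
  simp only [f3]
  have h1 : Tendsto (fun k : ℕ => ω + (k : ℝ)) UU atTop :=
    (tendsto_atTop_add_const_left _ ω tendsto_natCast_atTop_atTop).mono_left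
      exists_U.choose_spec.1
  exact (rl f).comp h1

theorem sep {S S' : Set ℝ} {a b c d : ℝ → ℂ} (ha : CC S a) (hb : DC S b) (hc : CC S' c)
    (hd : DC S' d) (h : ∀ ω, a ω + b ω = c ω + d ω) (ω : ℝ) : b ω = d ω := by
  have h1 := (ha.lim ω).add (hb.lim ω)
  have h2 := (hc.lim ω).add (hd.lim ω)
  simp only [h] at h1
  simpa using tendsto_nhds_unique h1 h2

theorem coef {ι : Type} [Countable ι] {c : ι → ℂ} {τ : ι → ℝ} (hc : Summable fun i => ‖c i‖)
    {φ : ℝ → ℂ} (h : ∀ ω, φ ω = ∑' i, ch th ω (τ i) * c i) (t : ℝ) :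
    Tendsto (fun T : ℝ => ∫ u in (0 : ℝ)..1, ch th (T * u) (-t) * φ (T * u)) atTop
      (𝓝 (∑' i, if τ i = t then c i else 0)) := by
  have := mean_tsum c (fun i => τ i - t) hc
  simp only [sub_eq_zero] at this
  refine this.congr fun T => ?_
  congr 1
  funext u
  rw [h, ← tsum_mul_left]
  congr 1
  funext i
  rw [← mul_assoc, ← ch_add]
  congr 2
  ring

theorem uniq2 {φ : ℝ → ℂ} (h : Cl (Set.Iio 0) φ) {a : ℂ} (ha : ∀ ω, φ ω = a) : a = 0 := by
  obtain ⟨f, d, f1, d1, e⟩ := h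
  have h1 : ∀ ω, d ω = a := sep (S' := Set.univ) f1 d1 (GC.zero _ _ _)
    (DC.const a (Or.inl trivial)) (fun ω => by rw [← e, ha, zero_add])
  obtain ⟨ι, _, c, τ, c1, c2, c3⟩ := d1
  have h2 := coef (sum_zero c1) c3 0
  have h3 : (∑' i, if τ i = 0 then c i else 0) = 0 := by
    have : ∀ i, (if τ i = 0 then c i else 0) = 0 := by
      intro i
      split_ifs with k
      · exact c2 i (by simp [k])
      · rfl
    simp [this]
  rw [h3] at h2
  simp only [h1, ch] at h2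
  simpa using h2

theorem uniq1 {φ : ℝ → ℂ} (h : Cl (Set.Iic 0) φ) (h' : Cl (Set.Ici 0) φ) :
    ∃ a, ∀ ω, φ ω = a := by
  obtain ⟨f, d, f1, d1, e⟩ := h
  obtain ⟨f', d', f1', d1', e'⟩ := h'
  have h1 : ∀ ω, d ω = d' ω := sep f1 d1 f1' d1' (fun ω => by rw [← e, ← e'])
  have h2 : ∀ ω, f ω = f' ω := fun ω => by
    have := (e ω).symm.trans (e' ω)
    rw [h1] at this
    exact add_right_cancel this
  obtain ⟨g, g1, g2, g3⟩ := f1
  obtain ⟨g', g1', g2', g3'⟩ := f1'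
  have h3 := uniq_L1 (int_sub (int_zero g1) (int_zero g1')) (fun ω => by
    simp only [smul_eq_mul, mul_sub]
    rw [integral_sub (int_ch (θ := fun t => t) measurable_id (int_zero g1) ω)
      (int_ch (θ := fun t => t) measurable_id (int_zero g1') ω), ← g3, ← g3', h2, sub_self])
  have h4 : g =ᵐ[volume] 0 := by
    have k : ∀ᵐ t : ℝ, t ≠ 0 := by simp [ae_iff]
    filter_upwards [h3, k] with t k1 k2
    rcases lt_or_gt_of_ne k2 with k3 | k3
    · rw [g2' t (by simpa using k3), sub_zero] at k1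
      exact k1
    · exact g2 t (by simpa using k3)
  have h5 : ∀ ω, f ω = 0 := by
    intro ω
    rw [g3]
    refine integral_eq_zero_of_ae ?_
    filter_upwards [h4] with t k
    simp [k]
  obtain ⟨ι, _, c, τ, c1, c2, c3⟩ := d1
  obtain ⟨κ, _, c', τ', c1', c2', c3'⟩ := d1'
  have h6 : ∀ t, t ≠ 0 → (∑' i, if τ i = t then c i else 0) = 0 := by
    intro t ht
    rcases lt_or_gt_of_ne ht with k3 | k3
    · have k1 := coef (sum_zero c1) c3 t
      have k2 := coef (sum_zero c1') (φ := d) (fun ω => by rw [h1, c3']) t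
      rw [tendsto_nhds_unique k1 k2]
      have : ∀ i, (if τ' i = t then c' i else 0) = 0 := by
        intro i
        split_ifs with k
        · exact c2' i (by simpa [k] using k3)
        · rfl
      simp [this]
    · have : ∀ i, (if τ i = t then c i else 0) = 0 := by
        intro i
        split_ifs with k
        · exact c2 i (by simpa [k] using k3)
        · rfl
      simp [this]
  refine ⟨∑' i, if τ i = 0 then c i else 0, fun ω => ?_⟩
  rw [e, h5, zero_add, c3]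
  have k1 := (sum_ch τ (sum_zero c1) ω).of_norm.hasSum.tsum_fiberwise τ
  have k2 : ∀ t, ∑' b : τ ⁻¹' {t}, ch th ω (τ b) * c b =
      ch th ω t * ∑' i, if τ i = t then c i else 0 := by
    intro t
    rw [tsum_subtype (τ ⁻¹' {t}) (fun b => ch th ω (τ b) * c b), ← tsum_mul_left]
    congr 1
    funext i
    by_cases k : τ i = t <;> simp [k]
  simp only [k2] at k1
  rw [← k1.tsum_eq, tsum_eq_single 0]
  · simp [ch]
  · intro t ht
    rw [h6 t ht, mul_zero]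

/-! ### merging the delays -/

theorem exists_subgroup (T : Set ℝ) (hT : T.Countable) :
    ∃ Γ : AddSubgroup ℝ, Countable Γ ∧ T ⊆ Γ := by
  haveI := hT.to_subtype
  refine ⟨(Submodule.span ℤ (Set.range (Subtype.val : T → ℝ))).toAddSubgroup, ?_, ?_⟩
  · change Countable (Submodule.span ℤ (Set.range (Subtype.val : T → ℝ)))
    infer_instance
  · intro t ht
    exact Submodule.subset_span ⟨⟨t, ht⟩, rfl⟩

theorem DC.merge {S : Set ℝ} {φ : ℝ → ℂ} (h : DC S φ) : ∃ T : Set ℝ, T.Countable ∧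
    ∀ (Γ : AddSubgroup ℝ) [Countable Γ], T ⊆ Γ →
      GC Measure.count (fun γ : Γ => (γ : ℝ)) Set.univ φ := by
  obtain ⟨ι, _, c, τ, c1, _, c3⟩ := h
  refine ⟨Set.range τ, Set.countable_range τ, fun Γ _ hΓ => ?_⟩
  let τ' : ι → Γ := fun i => ⟨τ i, hΓ ⟨i, rfl⟩⟩
  have hτ : ∀ (γ : Γ) (b : τ' ⁻¹' {γ}), τ b = γ := fun γ b => congrArg Subtype.val b.2
  refine toGC (c := fun γ => ∑' b : τ' ⁻¹' {γ}, c b) ?_ (by simp) fun ω => ?_
  · filter_upwards [c1] with s hs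
    refine (hs.hasSum.tsum_fiberwise τ').summable.of_nonneg_of_le (fun _ => by positivity) ?_
    intro γ
    simp only [hτ]
    rw [tsum_mul_left]
    refine mul_le_mul_of_nonneg_left ?_ (Real.exp_pos _).le
    exact norm_tsum_le_tsum_norm ((sum_zero c1).subtype _)
  · rw [c3, ← ((sum_ch τ (sum_zero c1) ω).of_norm.hasSum.tsum_fiberwise τ').tsum_eq]
    congr 1
    funext γ
    simp only [hτ]
    rw [tsum_mul_left]

end

end Pool.Agent.H34Z.SF
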