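import Pool.Agent.H34Z.SF.Planch

set_option autoImplicit false
set_option linter.unusedSectionVars false
set_option linter.deprecated false

/-! Mean values, and the Wiener-Hopf equation on a countable ordered group. -/

namespace Pool.Agent.H34Z.SF

open MeasureTheory Filter Topology

noncomputable section

theorem mean_ch (r : ℝ) : Tendsto (fun T : ℝ => ∫ u in (0 : ℝ)..1, ch th (T * u) r) atTop
    (𝓝 (if r = 0 then 1 else 0)) := by
  split_ifs with h
  · subst h
    simp [ch]
  · rw [tendsto_zero_iff_norm_tendsto_zero]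
    have h1 : Tendsto (fun T : ℝ => 2 / (T * |r|)) atTop (𝓝 0) :=
      tendsto_const_nhds.div_atTop (tendsto_id.atTop_mul_const (abs_pos.2 h))
    refine squeeze_zero' (Eventually.of_forall fun _ => norm_nonneg _) ?_ h1
    filter_upwards [eventually_gt_atTop 0] with T hT
    have hc : (-((T : ℂ) * r * Complex.I)) ≠ 0 := by
      simp [hT.ne', h]
    have e : (fun u : ℝ => ch th (T * u) r) =
        fun u : ℝ => Complex.exp (-((T : ℂ) * r * Complex.I) * u) := by
      funext u
      unfold ch
      congr 1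
      simp only [AddMonoidHom.id_apply]
      push_cast
      ring
    rw [e, integral_exp_mul_complex hc, norm_div]
    have e2 : ‖-((T : ℂ) * r * Complex.I)‖ = T * |r| := by
      simp [abs_of_pos hT]
    rw [e2]
    refine div_le_div_of_nonneg_right ?_ (by positivity)
    refine (norm_sub_le _ _).trans ?_
    rw [Complex.norm_exp, Complex.norm_exp]
    simp
    norm_num

theorem cont_ch (T r : ℝ) : Continuous fun u : ℝ => ch th (T * u) r := by
  unfold ch
  fun_prop

theorem mean_tsum {ι : Type} [Countable ι] (c : ι → ℂ) (τ : ι → ℝ)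
    (hc : Summable fun i => ‖c i‖) :
    Tendsto (fun T : ℝ => ∫ u in (0 : ℝ)..1, ∑' i, ch th (T * u) (τ i) * c i) atTop
      (𝓝 (∑' i, if τ i = 0 then c i else 0)) := by
  have e : ∀ T : ℝ, ∫ u in (0 : ℝ)..1, ∑' i, ch th (T * u) (τ i) * c i =
      ∑' i, (∫ u in (0 : ℝ)..1, ch th (T * u) (τ i)) * c i := by
    intro T
    simp only [intervalIntegral.integral_of_le zero_le_one]
    rw [← integral_tsum_of_summable_integral_norm]
    · simp only [integral_mul_const]
    · intro i
      exact ((cont_ch T (τ i)).mul continuous_const).integrableOn_Ioc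
    · simpa [norm_ch] using hc
  simp only [e]
  refine tendsto_tsum_of_dominated_convergence hc ?_ ?_
  · intro i
    have := (mean_ch (τ i)).mul_const (c i)
    simpa using this
  · filter_upwards with T i
    rw [norm_mul]
    refine mul_le_of_le_one_left (norm_nonneg _) ?_
    have := intervalIntegral.norm_integral_le_of_norm_le_const (a := 0) (b := 1) (C := 1)
      (f := fun u => ch th (T * u) (τ i)) (fun u _ => (norm_ch _ _ _).le)
    simpa using this

theorem conj_ch (ω r : ℝ) : (starRingEnd ℂ) (ch th ω r) = ch th ω (-r) := by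
  unfold ch
  rw [← Complex.exp_conj]
  congr 1
  simp

section Count

variable {G : Type} [AddCommGroup G] (θ : G →+ ℝ)
  {E : Type} [NormedAddCommGroup E] [InnerProductSpace ℂ E] [CompleteSpace E]

theorem parseval (hinj : Function.Injective θ) (D : Finset G) (y : G → E) :
    Tendsto (fun T : ℝ => ∫ u in (0 : ℝ)..1, ‖∑ t ∈ D, ch θ (T * u) t • y t‖ ^ 2) atTop
      (𝓝 (∑ t ∈ D, ‖y t‖ ^ 2)) := by
  classical
  have e1 : ∀ ω : ℝ, ((‖∑ t ∈ D, ch θ ω t • y t‖ ^ 2 : ℝ) : ℂ) =
      ∑ s ∈ D, ∑ t ∈ D, ch th ω (θ t - θ s) * inner ℂ (y s) (y t) := by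
    intro ω
    have k0 : inner ℂ (∑ t ∈ D, ch θ ω t • y t) (∑ t ∈ D, ch θ ω t • y t) =
        ((‖∑ t ∈ D, ch θ ω t • y t‖ : ℝ) : ℂ) ^ 2 := inner_self_eq_norm_sq_to_K _
    push_cast
    rw [← k0, sum_inner]
    refine Finset.sum_congr rfl fun s _ => ?_
    rw [inner_sum]
    refine Finset.sum_congr rfl fun t _ => ?_
    rw [inner_smul_left, inner_smul_right, ← mul_assoc]
    congr 1
    have k1 : ch θ ω s = ch th ω (θ s) := rfl
    have k2 : ch θ ω t = ch th ω (θ t) := rfl
    rw [k1, k2, conj_ch, ← ch_add]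
    congr 1
    ring
  have e2 : ∀ T : ℝ, ((∫ u in (0 : ℝ)..1, ‖∑ t ∈ D, ch θ (T * u) t • y t‖ ^ 2 : ℝ) : ℂ) =
      ∑ s ∈ D, ∑ t ∈ D, (∫ u in (0 : ℝ)..1, ch th (T * u) (θ t - θ s)) * inner ℂ (y s) (y t) := by
    intro T
    rw [← intervalIntegral.integral_ofReal]
    simp only [e1]
    rw [intervalIntegral.integral_finset_sum]
    · refine Finset.sum_congr rfl fun s _ => ?_
      rw [intervalIntegral.integral_finset_sum]
      · simp only [intervalIntegral.integral_mul_const]
      · intro t _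
        exact ((cont_ch T _).mul continuous_const).intervalIntegrable _ _
    · intro s _
      refine Continuous.intervalIntegrable ?_ _ _
      exact continuous_finset_sum _ fun t _ => (cont_ch T _).mul continuous_const
  have e3 : ((∑ t ∈ D, ‖y t‖ ^ 2 : ℝ) : ℂ) = ∑ s ∈ D, ∑ t ∈ D,
      (if θ t - θ s = 0 then 1 else 0) * inner ℂ (y s) (y t) := by
    push_cast
    refine Finset.sum_congr rfl fun s hs => ?_
    rw [Finset.sum_eq_single s]
    · simp
    · intro t _ hts
      rw [if_neg (fun h => hts (hinj (sub_eq_zero.1 h))), zero_mul]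
    · intro h; exact absurd hs h
  rw [← Filter.tendsto_ofReal_iff]
  simp only [e2]
  rw [e3]
  exact tendsto_finset_sum _ fun s _ => tendsto_finset_sum _ fun t _ => (mean_ch _).mul_const _

theorem parseval_le (hinj : Function.Injective θ) (D D' : Finset G) (y z : G → E) (r : ℝ)
    (h : ∀ ω, ‖∑ t ∈ D', ch θ ω t • z t‖ ≤ r * ‖∑ t ∈ D, ch θ ω t • y t‖) :
    ∑ t ∈ D', ‖z t‖ ^ 2 ≤ r ^ 2 * ∑ t ∈ D, ‖y t‖ ^ 2 := by
  refine le_of_tendsto_of_tendsto' (parseval θ hinj D' z) ((parseval θ hinj D y).const_mul _) ?_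
  intro T
  rw [← intervalIntegral.integral_const_mul]
  have hc : ∀ (D : Finset G) (y : G → E), Continuous fun u : ℝ =>
      ‖∑ t ∈ D, ch θ (T * u) t • y t‖ ^ 2 := fun D y =>
    (continuous_finset_sum _ fun t _ => (cont_ch T (θ t)).smul continuous_const).norm.pow 2
  refine intervalIntegral.integral_mono_on zero_le_one ((hc D' z).intervalIntegrable _ _)
    ((continuous_const.mul (hc D y)).intervalIntegrable _ _) ?_
  intro u _
  rw [← mul_pow]
  exact pow_le_pow_left₀ (norm_nonneg _) (h _) 2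

variable [MeasurableSpace G] [Countable G] [MeasurableSingletonClass G]

theorem integral_cnt {F : Type} [NormedAddCommGroup F] [NormedSpace ℝ F] [CompleteSpace F]
    {f : G → F} (hf : Integrable f Measure.count) : ∫ t, f t ∂Measure.count = ∑' t, f t := by
  rw [integral_countable hf]
  simp

instance gdCount : Gd (Measure.count : Measure G) E where
  meas _ := AEStronglyMeasurable.of_discrete

theorem cnt_eq {f g : G → E} (h : f =ᵐ[Measure.count] g) (t : G) : f t = g t :=
  Measure.ae_count_iff.1 h t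

open Classical in
/-- evaluation -/
def ev (t : G) : Lp E 1 (Measure.count : Measure G) →L[ℂ] E :=
  (L1.integralCLM' ℂ).comp (mulm Measure.count (fun s => if s = t then 1 else 0))

theorem ev_apply (t : G) (y : Lp E 1 (Measure.count : Measure G)) : ev t y = y t := by
  classical
  have hb : Bd (fun s : G => if s = t then (1 : ℂ) else 0) :=
    ⟨Measurable.of_discrete, fun s => by dsimp only; split_ifs <;> simp⟩
  rw [ev, ContinuousLinearMap.comp_apply, ← L1.integral_eq' ℂ, L1.integral_eq_integral,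
    integral_cnt (L1.integrable_coeFn _), tsum_eq_single t]
  · rw [cnt_eq (coe_mulm _ hb y)]
    simp
  · intro s hs
    rw [cnt_eq (coe_mulm _ hb y)]
    simp [hs]

theorem ft_fin (ω : ℝ) (D : Finset G) (y : Lp E 1 (Measure.count : Measure G))
    (h : ∀ t ∉ D, y t = 0) : ft Measure.count θ ω y = ∑ t ∈ D, ch θ ω t • y t := by
  rw [ft_apply _ _ Measurable.of_discrete,
    integral_cnt (integrable_ch _ θ Measurable.of_discrete ω (L1.integrable_coeFn y)),
    tsum_eq_sum]
  intro t ht
  rw [h t ht, smul_zero]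

/-- sums of at most `m` copies of each element of `S` -/
def InD (S : Finset G) (m : ℕ) (x : G) : Prop :=
  ∃ n : G → ℕ, (∀ s ∈ S, n s ≤ m) ∧ x = ∑ s ∈ S, n s • s

theorem InD.succ {S : Finset G} {m : ℕ} {x : G} (h : InD S m x) : InD S (m + 1) x := by
  obtain ⟨n, h1, h2⟩ := h
  exact ⟨n, fun s hs => (h1 s hs).trans (Nat.le_succ _), h2⟩

theorem InD.add {S : Finset G} {m : ℕ} {x s : G} (h : InD S m x) (hs : s ∈ S) :
    InD S (m + 1) (x + s) := by
  classical
  obtain ⟨n, h1, h2⟩ := h
  refine ⟨fun t => n t + if t = s then 1 else 0, fun t ht => ?_, ?_⟩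
  · have := h1 t ht
    dsimp only
    split_ifs <;> omega
  · simp only [add_smul, Finset.sum_add_distrib, ← h2]
    congr 1
    simp [hs]

theorem card_InD (S : Finset G) (m : ℕ) (g : G) (D : Finset G) (h : ∀ t ∈ D, InD S m (t - g)) :
    D.card ≤ (m + 1) ^ S.card := by
  classical
  have h1 : D ⊆ (Fintype.piFinset fun _ : S => Finset.range (m + 1)).image
      fun n => g + ∑ s : S, n s • (s : G) := by
    intro t ht
    obtain ⟨n, k1, k2⟩ := h t ht
    refine Finset.mem_image.2 ⟨fun s => n s, ?_, ?_⟩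
    · rw [Fintype.mem_piFinset]
      intro s
      exact Finset.mem_range.2 (Nat.lt_succ_of_le (k1 s s.2))
    · rw [Finset.sum_coe_sort S (fun s => n s • s), ← k2]
      abel
  refine (Finset.card_le_card h1).trans (Finset.card_image_le.trans ?_)
  rw [Fintype.card_piFinset]
  simp

/-- atoms -/
def Atom (S : Finset G) (m : ℕ) (y : Lp E 1 (Measure.count : Measure G)) (a : ℝ) : Prop :=
  0 ≤ a ∧ ∃ (D : Finset G) (g : G), (∀ t ∈ D, InD S m (t - g)) ∧ (∀ t ∉ D, y t = 0) ∧
    ∑ t ∈ D, ‖y t‖ ^ 2 ≤ a ^ 2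

theorem Atom.norm_le {S : Finset G} {m : ℕ} {y : Lp E 1 (Measure.count : Measure G)} {a : ℝ}
    (h : Atom S m y a) : ‖y‖ ≤ ((m : ℝ) + 1) ^ S.card * a := by
  obtain ⟨ha, D, g, h1, h2, h3⟩ := h
  rw [L1.norm_eq_integral_norm, integral_cnt (L1.integrable_coeFn y).norm,
    tsum_eq_sum (s := D) (fun t ht => by rw [h2 t ht, norm_zero])]
  have k1 : ∀ t ∈ D, ‖y t‖ ≤ a := by
    intro t ht
    have := Finset.single_le_sum (f := fun t => ‖y t‖ ^ 2) (fun _ _ => by positivity) ht
    exact (pow_le_pow_iff_left₀ (norm_nonneg _) ha two_ne_zero).1 (this.trans h3)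
  refine (Finset.sum_le_card_nsmul D _ a k1).trans ?_
  rw [nsmul_eq_mul]
  refine mul_le_mul_of_nonneg_right ?_ ha
  exact_mod_cast card_InD S m g D h1

theorem Atom.mulm {S : Finset G} {m : ℕ} {y : Lp E 1 (Measure.count : Measure G)} {a : ℝ}
    (h : Atom S m y a) {φ : G → ℂ} (hφ : Bd φ) : Atom S m (mulm Measure.count φ y) a := by
  obtain ⟨ha, D, g, h1, h2, h3⟩ := h
  refine ⟨ha, D, g, h1, fun t ht => ?_, le_trans (Finset.sum_le_sum fun t _ => ?_) h3⟩
  · rw [cnt_eq (coe_mulm _ hφ y), h2 t ht, smul_zero]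
  · rw [cnt_eq (coe_mulm _ hφ y), norm_smul]
    exact pow_le_pow_left₀ (by positivity) (mul_le_of_le_one_left (norm_nonneg _) (hφ.2 t)) 2

theorem Atom.shift {S : Finset G} {m : ℕ} {y : Lp E 1 (Measure.count : Measure G)} {a : ℝ}
    (h : Atom S m y a) (β : E →L[ℂ] E) (s : G) :
    Atom S (m + 1) (act Measure.count β (tr Measure.count s y)) (‖β‖ * a) := by
  classical
  obtain ⟨ha, D, g, h1, h2, h3⟩ := h
  have e : ∀ t, (act Measure.count β (tr Measure.count s y)) t = β (y (t - s)) := by
    intro t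
    rw [cnt_eq (coe_act _ β _), cnt_eq (coe_tr _ s y)]
  refine ⟨by positivity, D.image (· + s), g + s, ?_, ?_, ?_⟩
  · intro t ht
    obtain ⟨u, hu, rfl⟩ := Finset.mem_image.1 ht
    have : u + s - (g + s) = u - g := by abel
    rw [this]
    exact (h1 u hu).succ
  · intro t ht
    rw [e, h2, map_zero]
    intro k
    exact ht (Finset.mem_image.2 ⟨_, k, by simp⟩)
  · rw [Finset.sum_image (fun u _ v _ k => add_right_cancel k), mul_pow]
    refine le_trans ?_ (mul_le_mul_of_nonneg_left h3 (by positivity))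
    rw [Finset.mul_sum]
    refine Finset.sum_le_sum fun t _ => ?_
    rw [e, add_sub_cancel_right, ← mul_pow]
    exact pow_le_pow_left₀ (norm_nonneg _) (β.le_opNorm _) 2

theorem Atom.conv (hinj : Function.Injective θ) {S : Finset G} {m : ℕ}
    {y : Lp E 1 (Measure.count : Measure G)} {a : ℝ} (h : Atom S m y a) {b : G → E →L[ℂ] E}
    (hb : Integrable b Measure.count) (hS : ∀ s ∉ S, b s = 0) {r : ℝ} (hr : 0 ≤ r)
    (hm : ∀ ω, ‖∫ s, ch θ ω s • b s ∂Measure.count‖ ≤ r) :
    Atom S (m + 1) (conv Measure.count b y) (r * a) := by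
  classical
  obtain ⟨ha, D, g, h1, h2, h3⟩ := h
  have hz : ∀ t ∉ Finset.image₂ (· + ·) D S, (SF.conv Measure.count b y) t = 0 := by
    intro t ht
    rw [← ev_apply, map_conv _ _ hb]
    have : ∀ s, ev t (act Measure.count (b s) (tr Measure.count s y)) = 0 := by
      intro s
      rw [ev_apply, cnt_eq (coe_act _ _ _), cnt_eq (coe_tr _ s y)]
      by_cases k : s ∈ S
      · rw [h2, map_zero]
        intro k2
        exact ht (Finset.mem_image₂.2 ⟨_, k2, s, k, by simp⟩)
      · rw [hS s k]
        rfl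
    simp [this]
  refine ⟨by positivity, Finset.image₂ (· + ·) D S, g, ?_, hz, ?_⟩
  · intro t ht
    obtain ⟨u, hu, s, hs, rfl⟩ := Finset.mem_image₂.1 ht
    have : u + s - g = u - g + s := by abel
    rw [this]
    exact (h1 u hu).add hs
  · rw [mul_pow]
    refine le_trans (parseval_le θ hinj D _ y _ r fun ω => ?_)
      (mul_le_mul_of_nonneg_left h3 (by positivity))
    rw [← ft_fin θ ω _ _ hz, ← ft_fin θ ω _ _ h2, ft_conv _ _ Measurable.of_discrete ω hb]
    exact (ContinuousLinearMap.le_opNorm _ _).trans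
      (mul_le_mul_of_nonneg_right (hm ω) (norm_nonneg _))

theorem exists_trunc {F : Type} [NormedAddCommGroup F] {K : G → F}
    (hK : Integrable K Measure.count) {ε : ℝ} (hε : 0 < ε) :
    ∃ (S : Finset G) (b : G → F), Integrable b Measure.count ∧ (∀ s ∉ S, b s = 0) ∧
      ∫ s, ‖K s - b s‖ ∂Measure.count ≤ ε := by
  classical
  have hs := integrable_count_iff.1 hK
  obtain ⟨S, hS⟩ := ((tendsto_tsum_compl_atTop_zero (fun s => ‖K s‖)).eventually
    (ge_mem_nhds hε)).exists
  have hb : Integrable (fun s => if s ∈ S then K s else 0) Measure.count := by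
    refine hK.norm.mono' AEStronglyMeasurable.of_discrete ?_
    filter_upwards with s
    split_ifs <;> simp
  refine ⟨S, fun s => if s ∈ S then K s else 0, hb, fun s hs => if_neg hs, ?_⟩
  rw [integral_cnt (int_sub hK hb).norm]
  refine le_of_eq_of_le ?_ hS
  refine Eq.trans ?_ (tsum_subtype {x | x ∉ S} (fun s => ‖K s‖)).symm
  congr 1
  funext s
  by_cases k : s ∈ S <;> simp [k]

theorem whd (hinj : Function.Injective θ) (K : G → E →L[ℂ] E) {σ : ℝ} (hσ : 0 < σ)
    (h1 : Integrable (wt θ σ K) Measure.count) (h2 : Integrable (wt θ (-σ) K) Measure.count)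
    {ρ : ℝ} (hρ : ρ < 1) (hm : ∀ ω, ‖∫ s, ch θ ω s • K s ∂Measure.count‖ ≤ ρ) :
    ∃ σ2 : ℝ, 0 < σ2 ∧ ∀ v : E, ∃ y z : Lp E 1 (Measure.count : Measure G), ∀ ω,
        (1 - ∫ s, ch θ ω s • K s ∂Measure.count)
          (ft Measure.count θ ω (mulm Measure.count (wp θ σ2) y)) =
          v - ft Measure.count θ ω (mulm Measure.count (wn θ σ2) z) := by
  classical
  have hθ : Measurable θ := Measurable.of_discrete
  have hρ0 : 0 ≤ ρ := (norm_nonneg _).trans (hm 0)
  set ε := (1 - ρ) / 4 with hε
  have hε0 : 0 < ε := by rw [hε]; linarith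
  obtain ⟨σ1, s1, s2, s3⟩ := exists_small_wt Measure.count θ hθ hσ h1 h2 hε0
  have hK0 : Integrable K Measure.count := by
    have := integrable_wt Measure.count θ hθ h1 h2 (s := 0) (by simpa using hσ.le)
    have e : wt θ 0 K = K := by funext t; simp [wt]
    rwa [e] at this
  have hK1 : Integrable (wt θ σ1 K) Measure.count :=
    integrable_wt Measure.count θ hθ h1 h2 (by rw [abs_of_pos s1]; exact s2)
  have hK2 : Integrable (wt θ (-σ1) K) Measure.count :=
    integrable_wt Measure.count θ hθ h1 h2 (by rw [abs_neg, abs_of_pos s1]; exact s2)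
  refine ⟨σ1, s1, fun v => ?_⟩
  have hv : Integrable (fun t : G => if t = 0 then v else 0) Measure.count := by
    rw [integrable_count_iff]
    refine summable_of_ne_finset_zero (s := {0}) fun t ht => ?_
    rw [if_neg (by simpa using ht), norm_zero]
  set h : Lp E 1 (Measure.count : Measure G) := hv.toL1 _ with hh
  have hh1 : ∀ t, h t = if t = 0 then v else 0 := cnt_eq hv.coeFn_toL1
  have hw : ∀ η, 0 ≤ η → mulm Measure.count (wp θ η) h = h := by
    intro η hη
    apply Lp.ext
    filter_upwards [coe_mulm Measure.count (bd_wp θ hθ hη) h] with t k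
    rw [k, hh1]
    split_ifs with k2
    · simp [wp, k2]
    · simp
  have hft : ∀ ω, ft Measure.count θ ω h = v := by
    intro ω
    rw [ft_fin θ ω {0} h (fun t ht => by rw [hh1, if_neg (by simpa using ht)])]
    simp [hh1, ch]
  have main := solve Measure.count θ hθ 0 K σ1 σ1 s1.le le_rfl hK0 hK1 hK2 h (hw 0 le_rfl) ?_
  · obtain ⟨y, z, hyz⟩ := main
    refine ⟨y, z, fun ω => ?_⟩
    have := hyz ω
    rwa [sub_zero, hw σ1 s1.le, hft] at this
  set K' := wt θ σ1 K with hK'
  obtain ⟨S, b, hb, hS, hb2⟩ := exists_trunc hK1 hε0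
  have he : Integrable (fun t => K' t - b t) Measure.count := int_sub (F := E →L[ℂ] E) hK1 hb
  have hm' : ∀ ω, ‖∫ s, ch θ ω s • b s ∂Measure.count‖ ≤ ρ + 2 * ε := by
    intro ω
    have k1 := norm_four_le θ (int_sub (F := E →L[ℂ] E) hK1 hK0) ω
    have k1' := norm_four_le θ he ω
    have k2 : ∫ s, ch θ ω s • (K' s - K s) ∂Measure.count =
        (∫ s, ch θ ω s • K' s ∂Measure.count) - ∫ s, ch θ ω s • K s ∂Measure.count := by
      rw [← integral_sub (integrable_ch _ θ hθ ω hK1) (integrable_ch _ θ hθ ω hK0)]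
      simp only [smul_sub]
    have k2' : ∫ s, ch θ ω s • (K' s - b s) ∂Measure.count =
        (∫ s, ch θ ω s • K' s ∂Measure.count) - ∫ s, ch θ ω s • b s ∂Measure.count := by
      rw [← integral_sub (integrable_ch _ θ hθ ω hK1) (integrable_ch _ θ hθ ω hb)]
      simp only [smul_sub]
    have k3 : ∫ s, ch θ ω s • b s ∂Measure.count =
        ((∫ s, ch θ ω s • K s ∂Measure.count) + ∫ s, ch θ ω s • (K' s - K s) ∂Measure.count) -
          ∫ s, ch θ ω s • (K' s - b s) ∂Measure.count := by
      rw [k2, k2']; abel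
    rw [k3]
    have k4 := (norm_sub_le _ _).trans (add_le_add ((norm_add_le _ _).trans
      (add_le_add (hm ω) (k1.trans s3))) (k1'.trans hb2))
    linarith
  have b0 := bd_wp θ hθ (le_refl (0 : ℝ))
  have hsplit : ∀ u, conv Measure.count K' u =
      conv Measure.count (fun t => K' t - b t) u + conv Measure.count b u := by
    intro u
    rw [← conv_add Measure.count he hb]
    simp
  set T := TT Measure.count θ 0 K' with hT
  have hind : ∀ (j m : ℕ) (y : Lp E 1 (Measure.count : Measure G)) (a : ℝ), Atom S m y a →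
      ‖(T ^ j) y‖ ≤ (((m + j : ℕ) : ℝ) + 1) ^ S.card * (ρ + 3 * ε) ^ j * a := by
    intro j
    induction j with
    | zero =>
      intro m y a hy
      simpa using hy.norm_le
    | succ j ih =>
      intro m y a hy
      have e1 : (T ^ (j + 1)) y =
          ((T ^ j).comp (mulm Measure.count (wp θ 0)))
            (conv Measure.count (fun t => K' t - b t) y) +
          (T ^ j) (mulm Measure.count (wp θ 0) (conv Measure.count b y)) := by
        rw [pow_succ, ContinuousLinearMap.mul_apply, ContinuousLinearMap.comp_apply, ← map_add,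
          ← map_add, ← hsplit]
        have e0 : T y = mulm Measure.count (wp θ 0) (conv Measure.count K' y) := by
          rw [hT, TT, ContinuousLinearMap.comp_apply, ContinuousLinearMap.add_apply, map_zero,
            ContinuousLinearMap.zero_apply, zero_add]
        rw [e0]
      set W := (((m + 1 + j : ℕ) : ℝ) + 1) ^ S.card * (ρ + 3 * ε) ^ j with hW
      have hW0 : 0 ≤ W := by positivity
      have k1 := ih (m + 1) _ _ ((hy.conv θ hinj hb hS (by positivity) hm').mulm b0)
      have k2 : ‖((T ^ j).comp (mulm Measure.count (wp θ 0)))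
          (conv Measure.count (fun t => K' t - b t) y)‖ ≤ W * (ε * a) := by
        rw [map_conv _ _ he]
        refine (norm_integral_le_of_norm_le ((he.norm.mul_const a).const_mul W) ?_).trans ?_
        · filter_upwards with s
          have k3 := ih (m + 1) _ _ ((hy.shift (K' s - b s) s).mulm b0)
          rw [← hW] at k3
          rw [ContinuousLinearMap.comp_apply]
          exact k3
        · rw [integral_const_mul, integral_mul_const]
          exact mul_le_mul_of_nonneg_left (mul_le_mul_of_nonneg_right hb2 hy.1) hW0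
      rw [e1]
      refine (norm_add_le _ _).trans ((add_le_add k2 k1).trans (le_of_eq ?_))
      rw [show m + (j + 1) = m + 1 + j by ring, pow_succ]
      rw [← hW]
      ring
  have hat : Atom S 0 h ‖v‖ := by
    refine ⟨norm_nonneg _, {0}, 0, ?_, fun t ht => by rw [hh1, if_neg (by simpa using ht)], ?_⟩
    · intro t ht
      exact ⟨fun _ => 0, fun _ _ => le_rfl, by simpa using ht⟩
    · simp [hh1]
  have hr0 : 0 < ρ + 3 * ε := by positivity
  have hr1 : ‖ρ + 3 * ε‖ < 1 := by
    rw [Real.norm_eq_abs, abs_of_pos hr0, hε]; linarith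
  have g1 := (summable_nat_add_iff (f := fun n : ℕ => (n : ℝ) ^ S.card * (ρ + 3 * ε) ^ n) 1).2
    (summable_pow_mul_geometric_of_norm_lt_one S.card hr1)
  have g2 := (g1.mul_right (ρ + 3 * ε)⁻¹).mul_right ‖v‖
  refine g2.of_nonneg_of_le (fun _ => norm_nonneg _) (fun j => ?_)
  refine (norm_mulm _ (bd_wp θ hθ (by simp)) _).trans ((hind j 0 h _ hat).trans (le_of_eq ?_))
  rw [pow_succ]
  push_cast
  field_simp
  ring

end Count

end

end Pool.Agent.H34Z.SF
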