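import Mathlib

set_option autoImplicit false
set_option linter.unusedSectionVars false
set_option linter.deprecated false

/-! Convolution operators on `L¹` of an abelian group with an additive map to the reals. -/

namespace Pool.Agent.H34Z.SF

open MeasureTheory Filter Topology

noncomputable section

theorem int_add {Ω F : Type} [MeasurableSpace Ω] {ν : Measure Ω} [NormedAddCommGroup F]
    {f g : Ω → F} (hf : Integrable f ν) (hg : Integrable g ν) :
    Integrable (fun s => f s + g s) ν := hf.add hg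

theorem int_sub {Ω F : Type} [MeasurableSpace Ω] {ν : Measure Ω} [NormedAddCommGroup F]
    {f g : Ω → F} (hf : Integrable f ν) (hg : Integrable g ν) :
    Integrable (fun s => f s - g s) ν := hf.sub hg

variable {G : Type} [AddCommGroup G] [MeasurableSpace G] [MeasurableAdd G]
  (μ : Measure G) [μ.IsAddRightInvariant]
  {E : Type} [NormedAddCommGroup E] [NormedSpace ℂ E]

/-- translation -/
def tr (s : G) : Lp E 1 μ →L[ℂ] Lp E 1 μ :=
  (Lp.compMeasurePreservingₗᵢ ℂ (fun t => t - s)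
    (measurePreserving_sub_right μ s)).toContinuousLinearMap

theorem coe_tr (s : G) (y : Lp E 1 μ) : tr μ s y =ᵐ[μ] fun t => y (t - s) :=
  Lp.coeFn_compMeasurePreserving y (measurePreserving_sub_right μ s)

theorem norm_tr (s : G) (y : Lp E 1 μ) : ‖tr μ s y‖ = ‖y‖ :=
  Lp.norm_compMeasurePreserving y (measurePreserving_sub_right μ s)

theorem ae_shift {p : G → Prop} (s : G) (h : ∀ᵐ t ∂μ, p t) : ∀ᵐ t ∂μ, p (t - s) :=
  (measurePreserving_sub_right μ s).quasiMeasurePreserving.ae h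

omit [AddCommGroup G] [MeasurableAdd G] [μ.IsAddRightInvariant] in
/-- pointwise action of an operator -/
def act : (E →L[ℂ] E) →L[ℂ] Lp E 1 μ →L[ℂ] Lp E 1 μ :=
  (ContinuousLinearMap.id ℂ (E →L[ℂ] E)).compLpL₂ 1 μ

omit [AddCommGroup G] [MeasurableAdd G] [μ.IsAddRightInvariant] in
theorem coe_act (β : E →L[ℂ] E) (y : Lp E 1 μ) : act μ β y =ᵐ[μ] fun t => β (y t) :=
  β.coeFn_compLp y

omit [AddCommGroup G] [MeasurableAdd G] [μ.IsAddRightInvariant] in
theorem norm_act (β : E →L[ℂ] E) (y : Lp E 1 μ) : ‖act μ β y‖ ≤ ‖β‖ * ‖y‖ :=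
  β.norm_compLp_le y

/-- bounded measurable multipliers -/
def Bd (φ : G → ℂ) : Prop := Measurable φ ∧ ∀ t, ‖φ t‖ ≤ 1

omit [AddCommGroup G] [MeasurableAdd G] [μ.IsAddRightInvariant] in
theorem Bd.memLp {φ : G → ℂ} (h : Bd φ) (y : Lp E 1 μ) : MemLp (fun t => φ t • y t) 1 μ := by
  refine (Lp.memLp y).of_le (h.1.aestronglyMeasurable.smul (Lp.aestronglyMeasurable y)) ?_
  filter_upwards with t
  rw [norm_smul]
  exact mul_le_of_le_one_left (norm_nonneg _) (h.2 t)

omit [AddCommGroup G] [MeasurableAdd G] [μ.IsAddRightInvariant] in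
theorem Bd.mul {φ ψ : G → ℂ} (h : Bd φ) (h' : Bd ψ) : Bd (fun t => φ t * ψ t) :=
  ⟨h.1.mul h'.1, fun t => by
    rw [norm_mul]
    exact mul_le_one₀ (h.2 t) (norm_nonneg _) (h'.2 t)⟩

omit [AddCommGroup G] [MeasurableAdd G] [μ.IsAddRightInvariant] in
/-- multiplication operator, auxiliary -/
def mulA (φ : G → ℂ) (h : Bd φ) : Lp E 1 μ →L[ℂ] Lp E 1 μ :=
  LinearMap.mkContinuous
    { toFun := fun y => (h.memLp μ y).toLp _
      map_add' := fun y z => by
        apply Lp.ext
        filter_upwards [(h.memLp μ (y + z)).coeFn_toLp, (h.memLp μ y).coeFn_toLp,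
          (h.memLp μ z).coeFn_toLp, Lp.coeFn_add y z,
          Lp.coeFn_add ((h.memLp μ y).toLp _) ((h.memLp μ z).toLp _)] with t h1 h2 h3 h4 h5
        rw [h1, h5, Pi.add_apply, h2, h3, h4, Pi.add_apply, smul_add]
      map_smul' := fun c y => by
        apply Lp.ext
        filter_upwards [(h.memLp μ (c • y)).coeFn_toLp, (h.memLp μ y).coeFn_toLp,
          Lp.coeFn_smul c y, Lp.coeFn_smul c ((h.memLp μ y).toLp _)] with t h1 h2 h3 h4
        rw [RingHom.id_apply, h1, h4, Pi.smul_apply, h2, h3, Pi.smul_apply, smul_comm] } 1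
    (fun y => by
      rw [one_mul]
      apply Lp.norm_le_norm_of_ae_le
      filter_upwards [(h.memLp μ y).coeFn_toLp] with t h1
      change ‖((h.memLp μ y).toLp _ : Lp E 1 μ) t‖ ≤ _
      rw [h1, norm_smul]
      exact mul_le_of_le_one_left (norm_nonneg _) (h.2 t))

omit [AddCommGroup G] [MeasurableAdd G] [μ.IsAddRightInvariant] in
open Classical in
/-- multiplication operator -/
def mulm (φ : G → ℂ) : Lp E 1 μ →L[ℂ] Lp E 1 μ := if h : Bd φ then mulA μ φ h else 0

omit [AddCommGroup G] [MeasurableAdd G] [μ.IsAddRightInvariant] in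
theorem coe_mulm {φ : G → ℂ} (h : Bd φ) (y : Lp E 1 μ) :
    mulm μ φ y =ᵐ[μ] fun t => φ t • y t := by
  rw [mulm, dif_pos h]
  exact (h.memLp μ y).coeFn_toLp

omit [AddCommGroup G] [MeasurableAdd G] [μ.IsAddRightInvariant] in
theorem norm_mulm {φ : G → ℂ} (h : Bd φ) (y : Lp E 1 μ) : ‖mulm μ φ y‖ ≤ ‖y‖ := by
  apply Lp.norm_le_norm_of_ae_le
  filter_upwards [coe_mulm μ h y] with t h1
  rw [h1, norm_smul]
  exact mul_le_of_le_one_left (norm_nonneg _) (h.2 t)

omit [AddCommGroup G] [MeasurableAdd G] [μ.IsAddRightInvariant] in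
theorem mulm_mulm {φ ψ χ : G → ℂ} (h : Bd φ) (h' : Bd ψ) (h'' : Bd χ)
    (e : ∀ t, φ t * ψ t = χ t) (y : Lp E 1 μ) : mulm μ φ (mulm μ ψ y) = mulm μ χ y := by
  apply Lp.ext
  filter_upwards [coe_mulm μ h (mulm μ ψ y), coe_mulm μ h' y, coe_mulm μ h'' y] with t h1 h2 h3
  rw [h1, h2, h3, smul_smul, e]

omit [AddCommGroup G] [MeasurableAdd G] [μ.IsAddRightInvariant] in
theorem mulm_act {φ : G → ℂ} (h : Bd φ) (β : E →L[ℂ] E) (y : Lp E 1 μ) :
    mulm μ φ (act μ β y) = act μ β (mulm μ φ y) := by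
  apply Lp.ext
  filter_upwards [coe_mulm μ h (act μ β y), coe_act μ β y, coe_act μ β (mulm μ φ y),
    coe_mulm μ h y] with t h1 h2 h3 h4
  rw [h1, h2, h3, h4, map_smul]

/-- translations of an element depend measurably on the shift -/
class Gd (μ : Measure G) [μ.IsAddRightInvariant] (E : Type) [NormedAddCommGroup E]
    [NormedSpace ℂ E] : Prop where
  meas : ∀ y : Lp E 1 μ, AEStronglyMeasurable (fun s => tr μ s y) μ

variable [Gd μ E]

theorem integrable_conv {K : G → E →L[ℂ] E} (hK : Integrable K μ) (y : Lp E 1 μ) :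
    Integrable (fun s => act μ (K s) (tr μ s y)) μ := by
  refine (hK.norm.mul_const ‖y‖).mono' ?_ ?_
  · exact (act μ (E := E)).aestronglyMeasurable_comp₂ hK.1 (Gd.meas y)
  · filter_upwards with s
    have := norm_act μ (K s) (tr μ s y)
    rwa [norm_tr] at this

theorem norm_conv_aux {K : G → E →L[ℂ] E} (hK : Integrable K μ) (y : Lp E 1 μ) :
    ‖∫ s, act μ (K s) (tr μ s y) ∂μ‖ ≤ (∫ s, ‖K s‖ ∂μ) * ‖y‖ := by
  rw [← integral_mul_const]
  refine norm_integral_le_of_norm_le (hK.norm.mul_const ‖y‖) ?_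
  filter_upwards with s
  have := norm_act μ (K s) (tr μ s y)
  rwa [norm_tr] at this

/-- convolution, auxiliary -/
def convA (K : G → E →L[ℂ] E) (hK : Integrable K μ) : Lp E 1 μ →L[ℂ] Lp E 1 μ :=
  LinearMap.mkContinuous
    { toFun := fun y => ∫ s, act μ (K s) (tr μ s y) ∂μ
      map_add' := fun y z => by
        rw [← integral_add (integrable_conv μ hK y) (integrable_conv μ hK z)]
        simp only [map_add]
      map_smul' := fun c y => by
        rw [RingHom.id_apply, ← integral_smul]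
        simp only [map_smul] } (∫ s, ‖K s‖ ∂μ) (norm_conv_aux μ hK)

open Classical in
/-- convolution -/
def conv (K : G → E →L[ℂ] E) : Lp E 1 μ →L[ℂ] Lp E 1 μ :=
  if h : Integrable K μ then convA μ K h else 0

theorem conv_apply {K : G → E →L[ℂ] E} (hK : Integrable K μ) (y : Lp E 1 μ) :
    conv μ K y = ∫ s, act μ (K s) (tr μ s y) ∂μ := by
  rw [conv, dif_pos hK]
  rfl

theorem norm_conv {K : G → E →L[ℂ] E} (hK : Integrable K μ) (y : Lp E 1 μ) :
    ‖conv μ K y‖ ≤ (∫ s, ‖K s‖ ∂μ) * ‖y‖ := by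
  rw [conv_apply μ hK]
  exact norm_conv_aux μ hK y

theorem conv_add {K K' : G → E →L[ℂ] E} (hK : Integrable K μ) (hK' : Integrable K' μ)
    (y : Lp E 1 μ) : conv μ (fun s => K s + K' s) y = conv μ K y + conv μ K' y := by
  have hKK : Integrable (fun s => K s + K' s) μ := int_add (F := E →L[ℂ] E) hK hK'
  rw [conv_apply μ hKK, conv_apply μ hK, conv_apply μ hK',
    ← integral_add (integrable_conv μ hK y) (integrable_conv μ hK' y)]
  simp only [map_add, ContinuousLinearMap.add_apply]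

variable [CompleteSpace E]

theorem map_conv {F : Type} [NormedAddCommGroup F] [NormedSpace ℂ F] [CompleteSpace F]
    (L : Lp E 1 μ →L[ℂ] F) {K : G → E →L[ℂ] E} (hK : Integrable K μ) (y : Lp E 1 μ) :
    L (conv μ K y) = ∫ s, L (act μ (K s) (tr μ s y)) ∂μ := by
  rw [conv_apply μ hK, L.integral_comp_comm (integrable_conv μ hK y)]

theorem mul_conv {φ p ψ χ : G → ℂ} (hφ : Bd φ) (hp : Bd p) (hψ : Bd ψ) (hχ : Bd χ)
    {K K' : G → E →L[ℂ] E} (hK : Integrable K μ) (hK' : Integrable K' μ) (κ : G → ℂ)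
    (e1 : ∀ s, K' s = κ s • K s) (e2 : ∀ s t, φ t * p (t - s) = ψ t * (κ s * χ (t - s)))
    (y : Lp E 1 μ) :
    mulm μ φ (conv μ K (mulm μ p y)) = mulm μ ψ (conv μ K' (mulm μ χ y)) := by
  rw [map_conv μ _ hK, map_conv μ _ hK']
  congr 1
  funext s
  apply Lp.ext
  filter_upwards [coe_mulm μ hφ (act μ (K s) (tr μ s (mulm μ p y))),
    coe_act μ (K s) (tr μ s (mulm μ p y)), coe_tr μ s (mulm μ p y),
    ae_shift μ s (coe_mulm μ hp y),
    coe_mulm μ hψ (act μ (K' s) (tr μ s (mulm μ χ y))),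
    coe_act μ (K' s) (tr μ s (mulm μ χ y)), coe_tr μ s (mulm μ χ y),
    ae_shift μ s (coe_mulm μ hχ y)] with t h1 h2 h3 h4 h5 h6 h7 h8
  rw [h1, h2, h3, h4, h5, h6, h7, h8, e1, ContinuousLinearMap.smul_apply, map_smul, map_smul,
    smul_smul, smul_smul, smul_smul, e2, mul_assoc]

variable (θ : G →+ ℝ)

/-- characters -/
def ch (ω : ℝ) (t : G) : ℂ := Complex.exp (-((ω : ℂ) * (θ t : ℂ) * Complex.I))

omit [MeasurableSpace G] [MeasurableAdd G] in
theorem norm_ch (ω : ℝ) (t : G) : ‖ch θ ω t‖ = 1 := by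
  unfold ch
  rw [Complex.norm_exp]
  simp

omit [MeasurableSpace G] [MeasurableAdd G] in
theorem ch_add (ω : ℝ) (s t : G) : ch θ ω (s + t) = ch θ ω s * ch θ ω t := by
  unfold ch
  rw [← Complex.exp_add, map_add]
  congr 1
  push_cast
  ring

omit [MeasurableAdd G] in
theorem bd_ch (hθ : Measurable θ) (ω : ℝ) : Bd (ch θ ω) :=
  ⟨by unfold ch; fun_prop, fun t => (norm_ch θ ω t).le⟩

/-- transform -/
def ft (ω : ℝ) : Lp E 1 μ →L[ℂ] E := (L1.integralCLM' ℂ).comp (mulm μ (ch θ ω))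

omit [MeasurableAdd G] [μ.IsAddRightInvariant] [Gd μ E] in
theorem ft_apply (hθ : Measurable θ) (ω : ℝ) (y : Lp E 1 μ) :
    ft μ θ ω y = ∫ t, ch θ ω t • y t ∂μ := by
  rw [ft, ContinuousLinearMap.comp_apply, ← L1.integral_eq' ℂ, L1.integral_eq_integral]
  exact integral_congr_ae (coe_mulm μ (bd_ch θ hθ ω) y)

omit [MeasurableAdd G] [μ.IsAddRightInvariant] [Gd μ E] [CompleteSpace E] in
theorem integrable_ch (hθ : Measurable θ) (ω : ℝ) {F : Type} [NormedAddCommGroup F]
    [NormedSpace ℂ F] {f : G → F} (hf : Integrable f μ) :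
    Integrable (fun t => ch θ ω t • f t) μ := by
  refine hf.norm.mono' ((bd_ch θ hθ ω).1.aestronglyMeasurable.smul hf.1) ?_
  filter_upwards with t
  rw [norm_smul, norm_ch, one_mul]

omit [MeasurableAdd G] [μ.IsAddRightInvariant] [Gd μ E] in
theorem norm_ft (hθ : Measurable θ) (ω : ℝ) (y : Lp E 1 μ) : ‖ft μ θ ω y‖ ≤ ‖y‖ := by
  rw [ft_apply μ θ hθ, L1.norm_eq_integral_norm]
  refine norm_integral_le_of_norm_le (L1.integrable_coeFn y).norm ?_
  filter_upwards with t
  rw [norm_smul, norm_ch, one_mul]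

omit [MeasurableAdd G] [μ.IsAddRightInvariant] [Gd μ E] in
theorem ft_act (hθ : Measurable θ) (ω : ℝ) (β : E →L[ℂ] E) (y : Lp E 1 μ) :
    ft μ θ ω (act μ β y) = β (ft μ θ ω y) := by
  rw [ft_apply μ θ hθ, ft_apply μ θ hθ,
    ← β.integral_comp_comm (integrable_ch μ θ hθ ω (L1.integrable_coeFn y))]
  refine integral_congr_ae ?_
  filter_upwards [coe_act μ β y] with t h1
  rw [h1, map_smul]

omit [Gd μ E] in
theorem ft_tr (hθ : Measurable θ) (ω : ℝ) (s : G) (y : Lp E 1 μ) :
    ft μ θ ω (tr μ s y) = ch θ ω s • ft μ θ ω y := by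
  rw [ft_apply μ θ hθ, ft_apply μ θ hθ, ← integral_smul,
    ← integral_sub_right_eq_self (fun t => ch θ ω s • ch θ ω t • y t) s]
  refine integral_congr_ae ?_
  filter_upwards [coe_tr μ s y] with t h1
  rw [h1, smul_smul, ← ch_add, add_sub_cancel]

theorem ft_conv (hθ : Measurable θ) (ω : ℝ) {K : G → E →L[ℂ] E} (hK : Integrable K μ)
    (y : Lp E 1 μ) : ft μ θ ω (conv μ K y) = (∫ s, ch θ ω s • K s ∂μ) (ft μ θ ω y) := by
  rw [map_conv μ _ hK, ContinuousLinearMap.integral_apply (integrable_ch μ θ hθ ω hK)]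
  congr 1
  funext s
  rw [ft_act μ θ hθ, ft_tr μ θ hθ, map_smul, ContinuousLinearMap.smul_apply]

/-- decaying weight on the nonnegative side -/
def wp (η : ℝ) (t : G) : ℂ := if 0 ≤ θ t then (Real.exp (-(η * θ t)) : ℂ) else 0

/-- decaying weight on the negative side -/
def wn (η : ℝ) (t : G) : ℂ := if θ t < 0 then (Real.exp (η * θ t) : ℂ) else 0

omit [MeasurableAdd G] in
theorem bd_wp (hθ : Measurable θ) {η : ℝ} (hη : 0 ≤ η) : Bd (wp θ η) := by
  refine ⟨?_, fun t => ?_⟩
  · unfold wp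
    refine Measurable.ite (measurableSet_le measurable_const hθ) (by fun_prop) measurable_const
  · unfold wp
    split_ifs with h
    · rw [Complex.norm_real, Real.norm_eq_abs, abs_of_pos (Real.exp_pos _), Real.exp_le_one_iff]
      have := mul_nonneg hη h
      linarith
    · simp

omit [MeasurableAdd G] in
theorem bd_wn (hθ : Measurable θ) {η : ℝ} (hη : 0 ≤ η) : Bd (wn θ η) := by
  refine ⟨?_, fun t => ?_⟩
  · unfold wn
    refine Measurable.ite (measurableSet_lt hθ measurable_const) (by fun_prop) measurable_const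
  · unfold wn
    split_ifs with h
    · rw [Complex.norm_real, Real.norm_eq_abs, abs_of_pos (Real.exp_pos _), Real.exp_le_one_iff]
      exact mul_nonpos_of_nonneg_of_nonpos hη h.le
    · simp

/-- weighted kernel -/
def wt {F : Type} [NormedAddCommGroup F] [NormedSpace ℂ F] (s : ℝ) (K : G → F) (t : G) : F :=
  (Real.exp (s * θ t) : ℂ) • K t

/-- the truncated operator -/
def TT (A : E →L[ℂ] E) (K : G → E →L[ℂ] E) : Lp E 1 μ →L[ℂ] Lp E 1 μ :=
  (mulm μ (wp θ 0)).comp (act μ A + conv μ K)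

omit [MeasurableSpace G] [MeasurableAdd G] in
theorem wp_mul (a b : ℝ) (t : G) : wp θ a t * wp θ b t = wp θ (a + b) t := by
  unfold wp
  split_ifs with h
  · rw [← Complex.ofReal_mul, ← Real.exp_add]
    congr 2
    ring
  · simp

theorem solve (hθ : Measurable θ) (A : E →L[ℂ] E) (K : G → E →L[ℂ] E) (σ1 σ2 : ℝ)
    (h2 : 0 ≤ σ2) (h12 : σ2 ≤ σ1) (hK0 : Integrable K μ) (hK1 : Integrable (wt θ σ1 K) μ)
    (hK2 : Integrable (wt θ (-σ2) K) μ) (h : Lp E 1 μ) (hP : mulm μ (wp θ 0) h = h)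
    (hs : Summable fun j : ℕ => ‖mulm μ (wp θ (σ1 - σ2)) (((TT μ θ A (wt θ σ1 K)) ^ j) h)‖) :
    ∃ y z : Lp E 1 μ, ∀ ω, (1 - A - ∫ s, ch θ ω s • K s ∂μ) (ft μ θ ω (mulm μ (wp θ σ2) y)) =
      ft μ θ ω (mulm μ (wp θ σ1) h) - ft μ θ ω (mulm μ (wn θ σ2) z) := by
  have b0 := bd_wp θ hθ (le_refl (0 : ℝ))
  have b1 := bd_wp θ hθ (h2.trans h12)
  have b2 := bd_wp θ hθ h2
  have b3 := bd_wp θ hθ (sub_nonneg.2 h12)
  have n0 := bd_wn θ hθ (le_refl (0 : ℝ))
  have n2 := bd_wn θ hθ h2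
  set T := TT μ θ A (wt θ σ1 K) with hT
  set u : ℕ → Lp E 1 μ := fun j => (T ^ j) h with hu
  have hPu : ∀ j, mulm μ (wp θ 0) (u j) = u j := by
    intro j
    cases j with
    | zero => exact hP
    | succ j =>
      have : u (j + 1) = T (u j) := by simp only [hu, pow_succ']; rfl
      rw [this]
      exact mulm_mulm μ b0 b0 b0 (fun t => by rw [wp_mul, add_zero]) _
  have hs1 : Summable fun j => mulm μ (wp θ (σ1 - σ2)) (u j) := hs.of_norm
  set y := ∑' j, mulm μ (wp θ (σ1 - σ2)) (u j) with hy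
  set x := mulm μ (wp θ σ2) y with hx
  have hx1 : HasSum (fun j => mulm μ (wp θ σ1) (u j)) x := by
    have := (mulm μ (wp θ σ2)).hasSum hs1.hasSum
    have e : (fun j => mulm μ (wp θ σ2) (mulm μ (wp θ (σ1 - σ2)) (u j))) =
        fun j => mulm μ (wp θ σ1) (u j) := by
      funext j
      exact mulm_mulm μ b2 b3 b1 (fun t => by rw [wp_mul]; congr 1; ring) _
    rw [e] at this
    exact this
  have hstep : ∀ j, mulm μ (wp θ σ1) (u (j + 1)) = TT μ θ A K (mulm μ (wp θ σ1) (u j)) := by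
    intro j
    have e0 : u (j + 1) = T (u j) := by simp only [hu, pow_succ']; rfl
    rw [e0, hT]
    simp only [TT, ContinuousLinearMap.comp_apply, ContinuousLinearMap.add_apply, map_add]
    rw [mulm_mulm μ b1 b0 b1 (fun t => by rw [wp_mul, add_zero]),
      mulm_mulm μ b1 b0 b1 (fun t => by rw [wp_mul, add_zero])]
    congr 1
    · rw [mulm_act μ b1, mulm_act μ b0,
        mulm_mulm μ b0 b1 b1 (fun t => by rw [wp_mul, zero_add])]
    · conv_lhs => rw [← hPu j]
      refine mul_conv μ b1 b0 b0 b1 hK1 hK0 (fun s => (Real.exp (-(σ1 * θ s)) : ℂ)) ?_ ?_ _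
      · intro s
        unfold wt
        rw [smul_smul, ← Complex.ofReal_mul, ← Real.exp_add]
        simp
      · intro s t
        unfold wp
        split_ifs with k1 k2
        · simp only [← Complex.ofReal_mul, ← Real.exp_add, map_sub]
          congr 2
          ring
        · simp
        · simp
        · simp
  have hfix : x = mulm μ (wp θ σ1) h + TT μ θ A K x := by
    have k1 := (TT μ θ A K).hasSum hx1
    have k2 : HasSum (fun j => mulm μ (wp θ σ1) (u (j + 1))) (TT μ θ A K x) := by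
      simpa only [hstep] using k1
    have k3 := (hasSum_nat_add_iff' (f := fun j => mulm μ (wp θ σ1) (u j)) 1).2 hx1
    have k4 := k3.unique k2
    simp only [Finset.range_one, Finset.sum_singleton] at k4
    have k5 : u 0 = h := rfl
    rw [k5] at k4
    rw [← k4]
    abel
  have hPx : mulm μ (wp θ 0) x = x :=
    mulm_mulm μ b0 b2 b2 (fun t => by rw [wp_mul, zero_add]) _
  have hPN : ∀ v : Lp E 1 μ, mulm μ (wp θ 0) v + mulm μ (wn θ 0) v = v := by
    intro v
    apply Lp.ext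
    filter_upwards [coe_mulm μ b0 v, coe_mulm μ n0 v,
      Lp.coeFn_add (mulm μ (wp θ 0) v) (mulm μ (wn θ 0) v)] with t h1 h2 h3
    rw [h3, Pi.add_apply, h1, h2, ← add_smul]
    unfold wp wn
    by_cases k : 0 ≤ θ t
    · rw [if_pos k, if_neg (not_lt.2 k)]; simp
    · rw [if_neg k, if_pos (not_le.1 k)]; simp
  have hPA : mulm μ (wp θ 0) (act μ A x) = act μ A x := by rw [mulm_act μ b0, hPx]
  have hN : mulm μ (wn θ 0) (conv μ K x) =
      mulm μ (wn θ σ2) (conv μ (wt θ (-σ2) K) (mulm μ (wp θ σ2) x)) := by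
    conv_lhs => rw [← hPx]
    refine mul_conv μ n0 b0 n2 b2 hK0 hK2 (fun s => (Real.exp (-σ2 * θ s) : ℂ)) (fun s => rfl) ?_ _
    intro s t
    unfold wp wn
    split_ifs with k1 k2
    · simp only [← Complex.ofReal_mul, ← Real.exp_add, map_sub]
      congr 2
      ring
    · simp
    · simp
    · simp
  refine ⟨y, conv μ (wt θ (-σ2) K) (mulm μ (wp θ σ2) x), fun ω => ?_⟩
  rw [← hN, ← hx]
  have key : x - act μ A x - conv μ K x =
      mulm μ (wp θ σ1) h - mulm μ (wn θ 0) (conv μ K x) := by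
    have k1 := hPN (conv μ K x)
    have k2 : TT μ θ A K x = act μ A x + mulm μ (wp θ 0) (conv μ K x) := by
      simp only [TT, ContinuousLinearMap.comp_apply, ContinuousLinearMap.add_apply, map_add]
      rw [hPA]
    rw [k2] at hfix
    have k3 : mulm μ (wp θ σ1) h = x - (act μ A x + mulm μ (wp θ 0) (conv μ K x)) :=
      eq_sub_of_add_eq hfix.symm
    rw [k3]
    have k4 : mulm μ (wn θ 0) (conv μ K x) = conv μ K x - mulm μ (wp θ 0) (conv μ K x) :=
      eq_sub_of_add_eq' k1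
    rw [k4]
    abel
  have := congrArg (ft μ θ ω) key
  rw [map_sub, map_sub, map_sub, ft_act μ θ hθ, ft_conv μ θ hθ ω hK0] at this
  rw [← this]
  simp only [ContinuousLinearMap.sub_apply, ContinuousLinearMap.one_apply]

omit [AddCommGroup G] [MeasurableAdd G] [μ.IsAddRightInvariant] [Gd μ E] [CompleteSpace E] in
theorem integrable_wt {F : Type} [NormedAddCommGroup F] [NormedSpace ℂ F] {G' : Type}
    [AddCommGroup G'] [MeasurableSpace G'] (ν : Measure G') (θ : G' →+ ℝ) (hθ : Measurable θ)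
    {K : G' → F} {σ : ℝ} (h1 : Integrable (wt θ σ K) ν) (h2 : Integrable (wt θ (-σ) K) ν)
    {s : ℝ} (hs : |s| ≤ σ) : Integrable (wt θ s K) ν := by
  have hm : AEStronglyMeasurable (wt θ s K) ν := by
    have e : wt θ s K = fun t => (Real.exp ((s - σ) * θ t) : ℂ) • wt θ σ K t := by
      funext t
      unfold wt
      rw [smul_smul, ← Complex.ofReal_mul, ← Real.exp_add]
      congr 3
      ring
    rw [e]
    refine AEStronglyMeasurable.smul (Measurable.aestronglyMeasurable (by fun_prop)) h1.1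
  refine (h1.norm.add h2.norm).mono' hm ?_
  filter_upwards with t
  simp only [wt, norm_smul, Complex.norm_real, Real.norm_eq_abs, Real.abs_exp, Pi.add_apply]
  rw [← add_mul]
  refine mul_le_mul_of_nonneg_right ?_ (norm_nonneg _)
  have k1 := Real.exp_pos (σ * θ t)
  have k2 := Real.exp_pos (-σ * θ t)
  obtain ⟨k3, k4⟩ := abs_le.1 hs
  rcases le_total 0 (θ t) with k | k
  · have : Real.exp (s * θ t) ≤ Real.exp (σ * θ t) :=
      Real.exp_le_exp.2 (mul_le_mul_of_nonneg_right k4 k)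
    linarith
  · have : Real.exp (s * θ t) ≤ Real.exp (-σ * θ t) :=
      Real.exp_le_exp.2 (mul_le_mul_of_nonpos_right k3 k)
    linarith

omit [AddCommGroup G] [MeasurableAdd G] [μ.IsAddRightInvariant] [Gd μ E] [CompleteSpace E] in
/-- small weights change the kernel a little -/
theorem exists_small_wt {F : Type} [NormedAddCommGroup F] [NormedSpace ℂ F] {G' : Type}
    [AddCommGroup G'] [MeasurableSpace G'] (ν : Measure G') (θ : G' →+ ℝ) (hθ : Measurable θ)
    {K : G' → F} {σ : ℝ} (hσ : 0 < σ) (h1 : Integrable (wt θ σ K) ν)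
    (h2 : Integrable (wt θ (-σ) K) ν) {ε : ℝ} (hε : 0 < ε) :
    ∃ s, 0 < s ∧ s ≤ σ ∧ ∫ t, ‖wt θ s K t - K t‖ ∂ν ≤ ε := by
  have h0 : Integrable K ν := by
    have := integrable_wt ν θ hθ h1 h2 (s := 0) (by simpa using hσ.le)
    have e : wt θ 0 K = K := by funext t; simp [wt]
    rwa [e] at this
  let s : ℕ → ℝ := fun n => σ / ((n : ℝ) + 1)
  have hs0 : ∀ n, 0 < s n := fun n => by positivity
  have hs1 : ∀ n, s n ≤ σ := fun n => div_le_self hσ.le (by linarith [Nat.cast_nonneg (α := ℝ) n])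
  have hs2 : Tendsto s atTop (𝓝 0) := by
    have := tendsto_one_div_add_atTop_nhds_zero_nat (𝕜 := ℝ).const_mul σ
    simpa [s, div_eq_mul_inv] using this
  have hlim : Tendsto (fun n => ∫ t, ‖wt θ (s n) K t - K t‖ ∂ν) atTop (𝓝 (∫ _t, (0 : ℝ) ∂ν)) := by
    refine tendsto_integral_of_dominated_convergence
      (fun t => ‖wt θ σ K t‖ + ‖wt θ (-σ) K t‖ + ‖K t‖) ?_ ((h1.norm.add h2.norm).add h0.norm) ?_ ?_
    · intro n
      exact ((integrable_wt ν θ hθ h1 h2 (s := s n)
        (by rw [abs_of_pos (hs0 n)]; exact hs1 n)).sub h0).norm.1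
    · intro n
      filter_upwards with t
      rw [norm_norm]
      refine (norm_sub_le _ _).trans (add_le_add_left ?_ _)
      simp only [wt, norm_smul, Complex.norm_real, Real.norm_eq_abs, Real.abs_exp]
      rw [← add_mul]
      refine mul_le_mul_of_nonneg_right ?_ (norm_nonneg _)
      have k1 := Real.exp_pos (σ * θ t)
      have k2 := Real.exp_pos (-σ * θ t)
      rcases le_total 0 (θ t) with k | k
      · have : Real.exp (s n * θ t) ≤ Real.exp (σ * θ t) :=
          Real.exp_le_exp.2 (mul_le_mul_of_nonneg_right (hs1 n) k)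
        linarith
      · have : Real.exp (s n * θ t) ≤ Real.exp (-σ * θ t) :=
          Real.exp_le_exp.2 (mul_le_mul_of_nonpos_right (by linarith [hs0 n]) k)
        linarith
    · filter_upwards with t
      have hc : Continuous fun r : ℝ => ‖wt θ r K t - K t‖ := by
        unfold wt
        fun_prop
      have := (hc.tendsto 0).comp hs2
      simpa [wt, Function.comp_def] using this
  rw [integral_zero] at hlim
  obtain ⟨n, hn⟩ := (hlim.eventually (ge_mem_nhds hε)).exists
  exact ⟨s n, hs0 n, hs1 n, hn⟩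

end

end Pool.Agent.H34Z.SF
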