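import Pool.Agent.H34Z.SF.Mat

set_option autoImplicit false
set_option linter.unusedSectionVars false
set_option linter.deprecated false

/-! The two Wiener-Hopf steps and the spectral factorization. -/

namespace Pool.Agent.H34Z.SF

open MeasureTheory Filter Topology Matrix
open scoped ComplexOrder MatrixOrder

noncomputable section

variable {n : ℕ}

theorem int_sum {Ω F ι : Type} [MeasurableSpace Ω] {ν : Measure Ω} [NormedAddCommGroup F]
    (s : Finset ι) {f : ι → Ω → F} (hf : ∀ i, Integrable (f i) ν) :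
    Integrable (fun t => ∑ i ∈ s, f i t) ν := integrable_finset_sum s fun i _ => hf i

theorem int_smul {Ω F : Type} [MeasurableSpace Ω] {ν : Measure Ω} [NormedAddCommGroup F]
    [NormedSpace ℂ F] {f : Ω → ℂ} (hf : Integrable f ν) (c : F) :
    Integrable (fun t => f t • c) ν := hf.smul_const c

theorem exists_pm {p : ℝ → Prop} (h : ∀ᶠ s in 𝓝 (0 : ℝ), p s) : ∃ σ, 0 < σ ∧ p σ ∧ p (-σ) := by
  have : Tendsto (fun s : ℝ => -s) (𝓝 0) (𝓝 0) := by
    simpa using (continuous_neg (G := ℝ)).tendsto 0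
  obtain ⟨σ, h1, h2⟩ := (((h.and (this.eventually h)).filter_mono
    (nhdsWithin_le_nhds (s := Set.Ioi 0))).and self_mem_nhdsWithin).exists
  exact ⟨σ, h2, h1⟩

theorem kernel {G : Type} [AddCommGroup G] [MeasurableSpace G] (μ : Measure G) (θ : G →+ ℝ)
    (hθ : Measurable θ) {Φ : ℝ → Mt n} (h : ∀ i j, GC μ θ Set.univ fun ω => Φ ω i j) :
    ∃ (K : G → Eu n →L[ℂ] Eu n) (σ : ℝ), 0 < σ ∧ Integrable (wt θ σ K) μ ∧
      Integrable (wt θ (-σ) K) μ ∧ ∀ ω, TM (Φ ω) = ∫ s, ch θ ω s • K s ∂μ := by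
  choose g g1 _ g3 using h
  have k : ∀ᶠ s in 𝓝 (0 : ℝ), Integrable (wt θ s fun t => ∑ p : Fin n × Fin n,
      g p.1 p.2 t • TM (Matrix.single p.1 p.2 1)) μ := by
    filter_upwards [eventually_all.2 fun p : Fin n × Fin n => g1 p.1 p.2] with s hs
    have := int_sum (F := Eu n →L[ℂ] Eu n) Finset.univ fun p : Fin n × Fin n =>
      int_smul (hs p) (TM (Matrix.single p.1 p.2 1))
    refine this.congr ?_
    filter_upwards with t
    simp only [wt, Finset.smul_sum, smul_smul]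
  obtain ⟨σ, h0, h1, h2⟩ := exists_pm k
  refine ⟨_, σ, h0, h1, h2, fun ω => ?_⟩
  simp only [Finset.smul_sum, smul_smul]
  rw [integral_finset_sum, TM_sum]
  · refine Finset.sum_congr rfl fun p _ => ?_
    rw [integral_smul_const]
    congr 1
    exact g3 _ _ ω
  · intro p _
    exact int_smul (int_ch hθ (int_zero (g1 p.1 p.2)) ω) _

theorem GC_ft {G : Type} [AddCommGroup G] [MeasurableSpace G] (μ : Measure G) (θ : G →+ ℝ)
    (hθ : Measurable θ) {w : G → ℂ} (hw : Bd w) {S : Set ℝ} (hS : ∀ t, θ t ∉ S → w t = 0)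
    (hb : ∀ᶠ s in 𝓝 (0 : ℝ), ∀ t, Real.exp (s * θ t) * ‖w t‖ ≤ 1) (y : Lp (Eu n) 1 μ)
    (i : Fin n) : GC μ θ S fun ω => ft μ θ ω (mulm μ w y) i := by
  have hy : Integrable (fun t => y t i) μ :=
    (EuclideanSpace.proj (𝕜 := ℂ) i).integrable_comp (L1.integrable_coeFn y)
  refine ⟨fun t => w t * y t i, ?_, fun t ht => by simp [hS t ht], fun ω => ?_⟩
  · filter_upwards [hb] with s hs
    refine hy.norm.mono' (AEStronglyMeasurable.mul (Measurable.aestronglyMeasurable (by fun_prop))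
      (hw.1.aestronglyMeasurable.mul hy.1)) ?_
    filter_upwards with t
    rw [norm_mul, norm_mul, ← mul_assoc, Complex.norm_real, Real.norm_eq_abs,
      abs_of_pos (Real.exp_pos _)]
    exact mul_le_of_le_one_left (norm_nonneg _) (hs t)
  · beta_reduce
    rw [ft_apply μ θ hθ]
    have := (EuclideanSpace.proj (𝕜 := ℂ) i).integral_comp_comm
      (integrable_ch μ θ hθ ω (L1.integrable_coeFn (mulm μ w y)))
    refine this.symm.trans (integral_congr_ae ?_)
    filter_upwards [coe_mulm μ hw y] with t ht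
    rw [ht]
    rfl

theorem GC_wp {G : Type} [AddCommGroup G] [MeasurableSpace G] (μ : Measure G) (θ : G →+ ℝ)
    (hθ : Measurable θ) {σ : ℝ} (hσ : 0 < σ) (y : Lp (Eu n) 1 μ) (i : Fin n) :
    GC μ θ (Set.Ici 0) fun ω => ft μ θ ω (mulm μ (wp θ σ) y) i := by
  refine GC_ft μ θ hθ (bd_wp θ hθ hσ.le) (fun t ht => if_neg ht) ?_ y i
  filter_upwards [Iic_mem_nhds hσ] with s hs t
  unfold wp
  split_ifs with h
  · rw [Complex.norm_real, Real.norm_eq_abs, abs_of_pos (Real.exp_pos _), ← Real.exp_add,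
      Real.exp_le_one_iff]
    have := mul_le_mul_of_nonneg_right (show s ≤ σ from hs) h
    linarith
  · simp

theorem GC_wn {G : Type} [AddCommGroup G] [MeasurableSpace G] (μ : Measure G) (θ : G →+ ℝ)
    (hθ : Measurable θ) {σ : ℝ} (hσ : 0 < σ) (y : Lp (Eu n) 1 μ) (i : Fin n) :
    GC μ θ (Set.Iio 0) fun ω => ft μ θ ω (mulm μ (wn θ σ) y) i := by
  refine GC_ft μ θ hθ (bd_wn θ hθ hσ.le) (fun t (ht : ¬ θ t < 0) => if_neg ht) ?_ y i
  filter_upwards [Ici_mem_nhds (neg_lt_zero.2 hσ)] with s hs t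
  unfold wn
  split_ifs with h
  · rw [Complex.norm_real, Real.norm_eq_abs, abs_of_pos (Real.exp_pos _), ← Real.exp_add,
      Real.exp_le_one_iff]
    have := mul_le_mul_of_nonpos_right (show -σ ≤ s from hs) h.le
    linarith
  · simp

theorem cols (A : Mt n) (x m : Fin n → Eu n)
    (h : ∀ j, TM A (x j) = EuclideanSpace.single j 1 + m j) :
    A * (Matrix.of fun i j => x j i) = 1 + Matrix.of fun i j => m j i := by
  ext i j
  have := congrArg (fun v : Eu n => v i) (h j)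
  simp only [ofLp_toEuclideanCLM] at this
  rw [Matrix.mul_apply]
  refine this.trans ?_
  simp [Matrix.one_apply]

theorem Cl.cmul {S : Set ℝ} {φ : ℝ → ℂ} (h : Cl S φ) (a : ℂ) : Cl S fun ω => a * φ ω :=
  (Cl.const (S := {0}) a (Or.inl rfl)).mul (fun a ha b hb => by
    simpa [Set.mem_singleton_iff.1 ha] using hb) h

theorem stepA {Φ : ℝ → Mt n} (h : Coer Φ) (hd : ∀ i j, DC Set.univ fun ω => Φ ω i j) :
    ∃ X N : ℝ → Mt n, MC (Set.Ici 0) X ∧ MC (Set.Iio 0) N ∧ ∀ ω, Φ ω * X ω = 1 + N ω := by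
  obtain ⟨c, hc, ρ, hρ, h1⟩ := h.contr fun i j => (hd i j).bdd
  have h2 : ∀ i j, DC Set.univ fun ω => (1 - c • Φ ω) i j := by
    intro i j
    have := (DC.const (S := Set.univ) ((1 : Mt n) i j) (Or.inl trivial)).add
      ((DC.const (S := Set.univ) (-c) (Or.inl trivial)).mul (S3 := Set.univ)
        (fun _ _ _ _ => trivial) (hd i j))
    simpa [sub_eq_add_neg] using this
  choose T hT h3 using fun i j => (h2 i j).merge
  obtain ⟨Γ, _, hΓ⟩ := exists_subgroup (⋃ i, ⋃ j, T i j)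
    (Set.countable_iUnion fun i => Set.countable_iUnion fun j => hT i j)
  have hθ : Measurable Γ.subtype := measurable_subtype_coe
  obtain ⟨K, σ, hσ, k1, k2, k3⟩ := kernel Measure.count Γ.subtype hθ (Φ := fun ω => 1 - c • Φ ω)
    fun i j => h3 i j Γ ((Set.subset_iUnion₂ (s := T) i j).trans hΓ)
  obtain ⟨σ2, hσ2, k4⟩ := whd Γ.subtype Subtype.val_injective K hσ k1 k2 hρ
    (fun ω => by rw [← k3]; exact h1 ω)
  choose y z k5 using fun j => k4 (EuclideanSpace.single j 1)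
  refine ⟨fun ω => Matrix.of fun i j => (c • ft Measure.count Γ.subtype ω
      (mulm Measure.count (wp Γ.subtype σ2) (y j))) i,
    fun ω => Matrix.of fun i j => (-ft Measure.count Γ.subtype ω
      (mulm Measure.count (wn Γ.subtype σ2) (z j))) i, fun i j => ?_, fun i j => ?_,
    fun ω => cols _ _ _ fun j => ?_⟩
  · exact (GC_wp _ _ hθ hσ2 (y j) i).toDC.cl.cmul c
  · simpa using (GC_wn _ _ hθ hσ2 (z j) i).toDC.cl.cmul (-1)
  · rw [← sub_eq_add_neg, ← k5 j ω, ← k3, TM, TM, map_sub, map_one, sub_sub_cancel, map_smul,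
      map_smul]
    rfl

theorem stepB {Φ Ψ : ℝ → Mt n} {D : Mt n} (h : Coer Φ) (hD : IsUnit D) (hΨ : MA Ψ)
    (e : ∀ ω, Φ ω = D + Ψ ω) :
    ∃ X N : ℝ → Mt n, MC (Set.Ici 0) X ∧ MC (Set.Iio 0) N ∧ ∀ ω, Φ ω * X ω = 1 + N ω := by
  have hb : MC Set.univ Φ := by
    have : MC Set.univ fun ω => D + Ψ ω := (MC.const (Set.mem_univ _) D).add fun i j => (hΨ i j).cl
    simpa only [← e] using this
  obtain ⟨c, hc, ρ, hρ, h1⟩ := h.contr hb.bdd
  obtain ⟨K, σ, hσ, k1, k2, k3⟩ := kernel volume th mth (Φ := fun ω => -c • Ψ ω)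
    fun i j => GC.cmul (hΨ i j) (-c)
  have k0 : ∀ ω, TM (1 - c • D) + ∫ s, ch th ω s • K s = TM (1 - c • Φ ω) := by
    intro ω
    rw [← k3, TM, TM, TM, ← map_add, e]
    congr 1
    module
  obtain ⟨σ1, σ2, s1, s2, s3, k4⟩ := wh (TM (1 - c • D)) K hσ k1 k2 hρ
    (fun ω => by rw [k0]; exact h1 ω)
  have s0 : 0 < σ1 := s1.trans_le s2
  have i1 := integrable_wt volume th mth k1 k2 (s := σ1) (by rwa [abs_of_pos s0])
  have i2 := integrable_wt volume th mth k1 k2 (s := -σ1) (by rwa [abs_neg, abs_of_pos s0])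
  have i0 : Integrable K := by
    have := integrable_wt volume th mth k1 k2 (s := 0) (by simpa using hσ.le)
    have e : wt th 0 K = K := by funext t; simp [wt]
    rwa [e] at this
  have b0 := bd_wp th mth (le_refl (0 : ℝ))
  have b1 := bd_wp th mth s0.le
  have b2 := bd_wn th mth s0.le
  have key : ∀ v : Eu n, ∃ y z z' : Lp (Eu n) 1 (volume : Measure ℝ), ∀ ω,
      c • TM (Φ ω) (ft volume th ω (mulm volume (wp th σ2) y)) =
        (∫ s, ch th ω s • K s) v - ft volume th ω (mulm volume (wn th σ1) z') -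
          ft volume th ω (mulm volume (wn th σ2) z) := by
    intro v
    have j1 : Integrable fun t => wt th σ1 K t v := i1.apply_continuousLinearMap v
    have j2 : Integrable fun t => wt th (-σ1) K t v := i2.apply_continuousLinearMap v
    obtain ⟨y, z, k5⟩ := k4 (mulm volume (wp th 0) (j1.toL1 _))
      (mulm_mulm volume b0 b0 b0 (fun t => by rw [wp_mul, add_zero]) _)
    refine ⟨y, z, j2.toL1 _, fun ω => ?_⟩
    have k6 := k5 ω
    rw [sub_sub, k0, TM, map_sub, map_one, sub_sub_cancel, map_smul,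
      mulm_mulm volume b1 b0 b1 (fun t => by rw [wp_mul, add_zero])] at k6
    refine k6.trans ?_
    congr 1
    rw [eq_sub_iff_add_eq, ← map_add, ft_apply volume th mth,
      ContinuousLinearMap.integral_apply (integrable_ch volume th mth ω i0)]
    refine integral_congr_ae ?_
    filter_upwards [Lp.coeFn_add (mulm volume (wp th σ1) (j1.toL1 _))
      (mulm volume (wn th σ1) (j2.toL1 _)), coe_mulm volume b1 (j1.toL1 _),
      coe_mulm volume b2 (j2.toL1 _), j1.coeFn_toL1, j2.coeFn_toL1] with t t1 t2 t3 t4 t5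
    rw [t1, Pi.add_apply, t2, t3, t4, t5, ContinuousLinearMap.smul_apply]
    congr 1
    simp only [wt, wp, wn, ContinuousLinearMap.smul_apply, smul_smul]
    rcases le_or_gt 0 (th t) with k | k
    · rw [if_pos k, if_neg (not_lt.2 k), ← Complex.ofReal_mul, ← Real.exp_add]
      simp
    · rw [if_neg (not_le.2 k), if_pos k, ← Complex.ofReal_mul, ← Real.exp_add]
      simp
  choose y z z' k5 using fun j => key (TM D⁻¹ (EuclideanSpace.single j 1))
  refine ⟨fun ω => Matrix.of fun i j => (TM D⁻¹ (EuclideanSpace.single j 1) +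
      ft volume th ω (mulm volume (wp th σ2) (y j))) i,
    fun ω => Matrix.of fun i j => (-c⁻¹ • (ft volume th ω (mulm volume (wn th σ1) (z' j)) +
      ft volume th ω (mulm volume (wn th σ2) (z j)))) i, fun i j => ?_, fun i j => ?_,
    fun ω => cols _ _ _ fun j => ?_⟩
  · exact (Cl.const _ (Or.inl (by simp))).add (CC.cl (GC_wp _ _ mth s1 (y j) i))
  · exact ((CC.cl (GC_wn _ _ mth s0 (z' j) i)).add (CC.cl (GC_wn _ _ mth s1 (z j) i))).cmul _
  · have k6 := k5 j ω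
    rw [← k3] at k6
    have k7 : TM (Φ ω) (TM D⁻¹ (EuclideanSpace.single j 1)) = EuclideanSpace.single j 1 +
        TM (Ψ ω) (TM D⁻¹ (EuclideanSpace.single j 1)) := by
      rw [e, TM, map_add, ContinuousLinearMap.add_apply, ← ContinuousLinearMap.mul_apply,
        ← map_mul, Matrix.mul_nonsing_inv _ ((Matrix.isUnit_iff_isUnit_det _).1 hD), map_one,
        ContinuousLinearMap.one_apply]
    have k8 : TM (-c • Ψ ω) = -c • TM (Ψ ω) := map_smul _ _ _
    rw [k8, ContinuousLinearMap.smul_apply] at k6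
    have k9 := congrArg (fun v => c⁻¹ • v) k6
    simp only [smul_smul, inv_mul_cancel₀ hc, one_smul, smul_sub, mul_neg] at k9
    rw [map_add, k7, k9]
    module

theorem factor {F Fa Fd : ℝ → Mt n} (h : Coer F) (e : ∀ ω, F ω = Fa ω + Fd ω) (ha : MA Fa)
    (hd : ∀ i j, DC Set.univ fun ω => Fd ω i j) :
    ∃ R : ℝ → Mt n, (∀ ω, IsUnit (R ω)) ∧ (∀ ω, F ω = (R ω)ᴴ * R ω) ∧ MC (Set.Ici 0) R ∧
      MC (Set.Ici 0) fun ω => (R ω)⁻¹ := by
  have c1 := h.lim e ha hd
  obtain ⟨X1, N1, x1, n1, e1⟩ := stepA c1 hd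
  obtain ⟨D1, d1, f1, Y1, y1, g1⟩ := fact c1.posDef x1 n1 e1
  have c2 := h.conj y1.bdd g1
  obtain ⟨X2, N2, x2, n2, e2⟩ := stepB (Ψ := fun ω => (X1 ω)ᴴ * Fa ω * X1 ω) c2 d1.isUnit
    ((ha.lmul (x1.star (S' := Set.univ) fun _ _ => trivial)).rmul x1)
    (fun ω => by rw [e, ← f1 ω, mul_add, add_mul, add_comm])
  obtain ⟨D2, d2, f2, Y2, y2, g2⟩ := fact c2.posDef x2 n2 e2
  obtain ⟨S, hS, rfl⟩ := CStarAlgebra.isStrictlyPositive_iff_eq_star_mul_self.mp
    d2.isStrictlyPositive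
  have hS' := (Matrix.isUnit_iff_isUnit_det _).1 hS
  have g3 : ∀ ω, S * (Y2 ω * Y1 ω) * (X1 ω * X2 ω * S⁻¹) = 1 := by
    intro ω
    calc S * (Y2 ω * Y1 ω) * (X1 ω * X2 ω * S⁻¹)
        = S * (Y2 ω * (Y1 ω * X1 ω) * X2 ω) * S⁻¹ := by simp only [mul_assoc]
      _ = 1 := by rw [g1, mul_one, g2, mul_one, Matrix.mul_nonsing_inv _ hS']
  refine ⟨fun ω => S * (Y2 ω * Y1 ω), fun ω => IsUnit.of_mul_eq_one _ (g3 ω), fun ω => ?_,
    (MC.const (by simp) S).pmul (y2.pmul y1), ?_⟩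
  · have g4 : X1 ω * X2 ω * (Y2 ω * Y1 ω) = 1 := by
      rw [mul_assoc, ← mul_assoc (X2 ω), mul_eq_one_comm.1 (g2 ω), one_mul,
        mul_eq_one_comm.1 (g1 ω)]
    calc F ω = (X1 ω * X2 ω * (Y2 ω * Y1 ω))ᴴ * F ω * (X1 ω * X2 ω * (Y2 ω * Y1 ω)) := by
          rw [g4, conjTranspose_one, one_mul, mul_one]
      _ = (Y2 ω * Y1 ω)ᴴ * ((X2 ω)ᴴ * ((X1 ω)ᴴ * F ω * X1 ω) * X2 ω) * (Y2 ω * Y1 ω) := by
          simp only [conjTranspose_mul, mul_assoc]
      _ = _ := by
          rw [f2, star_eq_conjTranspose]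
          simp only [conjTranspose_mul, mul_assoc]
  · simp only [fun ω => Matrix.inv_eq_right_inv (g3 ω)]
    exact (x1.pmul x2).pmul (MC.const (by simp) _)

theorem ch_eq (ω t : ℝ) (a : ℂ) :
    a * Complex.exp (-((ω : ℂ) * (t : ℂ) * Complex.I)) = ch th ω t * a := mul_comm _ _

theorem ev_le {σ : ℝ} (hσ : 0 < σ) : ∀ᶠ s in 𝓝 (0 : ℝ), ∀ t : ℝ, s * t ≤ σ * |t| := by
  filter_upwards [Icc_mem_nhds (neg_lt_zero.2 hσ) hσ] with s hs t
  calc s * t ≤ |s * t| := le_abs_self _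
    _ = |s| * |t| := abs_mul _ _
    _ ≤ σ * |t| := mul_le_mul_of_nonneg_right (abs_le.2 hs) (abs_nonneg _)

theorem input_a {σ : ℝ} (hσ : 0 < σ) {f : ℝ → ℂ}
    (h : Integrable fun t : ℝ => f t * ((Real.exp (σ * |t|) : ℝ) : ℂ)) :
    CC Set.univ fun ω => ∫ t : ℝ, f t * Complex.exp (-((ω : ℂ) * (t : ℂ) * Complex.I)) := by
  refine ⟨f, ?_, by simp, fun ω => by simp only [ch_eq]⟩
  filter_upwards [ev_le hσ] with s hs
  have e : (fun t : ℝ => (Real.exp (s * t) : ℂ) * f t) = fun t =>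
      (Real.exp (s * t - σ * |t|) : ℂ) * (f t * ((Real.exp (σ * |t|) : ℝ) : ℂ)) := by
    funext t
    rw [mul_comm (f t), ← mul_assoc, ← Complex.ofReal_mul, ← Real.exp_add, sub_add_cancel]
  rw [e]
  refine h.bdd_mul (c := 1) (Continuous.aestronglyMeasurable (by fun_prop)) ?_
  filter_upwards with t
  rw [Complex.norm_real, Real.norm_eq_abs, abs_of_pos (Real.exp_pos _), Real.exp_le_one_iff]
  linarith [hs t]

theorem input_d {σ : ℝ} (hσ : 0 < σ) {c : ℕ → ℂ} {τ : ℕ → ℝ}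
    (h : Summable fun k : ℕ => ‖c k‖ * Real.exp (σ * |τ k|)) :
    DC Set.univ fun ω =>
      ∑' k : ℕ, c k * Complex.exp (-((ω : ℂ) * ((τ k : ℝ) : ℂ) * Complex.I)) := by
  refine ⟨ℕ, inferInstance, c, τ, ?_, by simp, fun ω => by simp only [ch_eq]⟩
  filter_upwards [ev_le hσ] with s hs
  refine h.of_nonneg_of_le (fun _ => by positivity) fun k => ?_
  rw [mul_comm]
  exact mul_le_mul_of_nonneg_left (Real.exp_le_exp.2 (hs _)) (norm_nonneg _)

theorem output {φ : ℝ → ℂ} (h : Cl (Set.Ici 0) φ) :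
    ∃ σ : ℝ, 0 < σ ∧ ∃ (fa : ℝ → ℂ) (c : ℕ → ℂ) (τ : ℕ → ℝ), (∀ k : ℕ, 0 ≤ τ k) ∧
      Integrable (fun t : ℝ => fa t * ((Real.exp (σ * t) : ℝ) : ℂ))
        (volume.restrict (Set.Ici (0 : ℝ))) ∧
      Summable (fun k : ℕ => ‖c k‖ * Real.exp (σ * τ k)) ∧
      ∀ ω : ℝ, φ ω =
        (∫ t in Set.Ici (0 : ℝ), fa t * Complex.exp (-((ω : ℂ) * (t : ℂ) * Complex.I))) +
          ∑' k : ℕ, c k * Complex.exp (-((ω : ℂ) * ((τ k : ℝ) : ℂ) * Complex.I)) := by
  obtain ⟨a, b, ⟨g, g1, g2, g3⟩, ⟨ι, _, c, τ, c1, c2, c3⟩, e⟩ := h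
  obtain ⟨σ, hσ, ⟨h1, h2⟩, -⟩ := exists_pm (g1.and c1)
  obtain ⟨f, hf⟩ := exists_injective_nat ι
  have hz : ∀ k, k ∉ Set.range f → Function.extend f c 0 k = 0 := fun k hk =>
    Function.extend_apply' _ _ _ hk
  have hm : ∀ (u : ℝ → ℂ) (i : ι), u (max (τ i) 0) * c i = u (τ i) * c i := by
    intro u i
    rcases le_or_gt 0 (τ i) with k | k
    · rw [max_eq_left k]
    · rw [c2 i (by simpa using k), mul_zero, mul_zero]
  refine ⟨σ, hσ, g, Function.extend f c 0, Function.extend f (fun i => max (τ i) 0) 0,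
    fun k => ?_, ?_, ?_, fun ω => ?_⟩
  · by_cases hk : ∃ i, f i = k
    · obtain ⟨i, rfl⟩ := hk
      rw [hf.extend_apply]
      exact le_max_right _ _
    · rw [Function.extend_apply' _ _ _ hk]
      rfl
  · simp only [mul_comm (g _)]
    exact h1.integrableOn
  · rw [← hf.summable_iff (fun k hk => by rw [hz k hk]; simp)]
    refine h2.congr fun i => ?_
    simp only [Function.comp_apply, hf.extend_apply]
    have := congrArg norm (hm (fun t => (Real.exp (σ * t) : ℂ)) i)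
    simp only [norm_mul, Complex.norm_real, Real.norm_eq_abs, Real.abs_exp] at this
    rw [mul_comm ‖c i‖, this]
  · simp only [ch_eq]
    rw [e, g3, c3, setIntegral_eq_integral_of_forall_compl_eq_zero
      (fun t ht => by rw [g2 t ht, mul_zero]), ← hf.tsum_eq (by
        intro k hk
        by_contra k2
        exact hk (by simp only [hz k k2, mul_zero]))]
    simp only [hf.extend_apply, hm (ch th ω)]

end

end Pool.Agent.H34Z.SF
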