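import Pool.Agent.H34Z.SF.Cls

set_option autoImplicit false
set_option linter.unusedSectionVars false
set_option linter.deprecated false

/-! Matrix valued transforms: coercivity and the abstract factorization lemma. -/

namespace Pool.Agent.H34Z.SF

open MeasureTheory Filter Topology Matrix
open scoped ComplexOrder

noncomputable section

/-- matrices -/
abbrev Mt (n : ℕ) := Matrix (Fin n) (Fin n) ℂ

/-- vectors -/
abbrev Eu (n : ℕ) := EuclideanSpace ℂ (Fin n)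

variable {n : ℕ}

/-- matrices as operators -/
abbrev TM (A : Mt n) : Eu n →L[ℂ] Eu n := Matrix.toEuclideanCLM (𝕜 := ℂ) (n := Fin n) A

/-- the quadratic form -/
def qf (A : Mt n) (v : Eu n) : ℝ := (star v.ofLp ⬝ᵥ A *ᵥ v.ofLp).re

theorem qf_eq (A : Mt n) (v : Eu n) : qf A v = (inner ℂ v (TM A v)).re := by
  rw [EuclideanSpace.inner_eq_star_dotProduct, dotProduct_comm]
  rfl

/-- uniform coercivity -/
def Coer (Φ : ℝ → Mt n) : Prop :=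
  (∀ ω, (Φ ω).IsHermitian) ∧ ∃ ε : ℝ, 0 < ε ∧ ∀ ω v, ε * ‖v‖ ^ 2 ≤ qf (Φ ω) v

theorem Coer.posDef {Φ : ℝ → Mt n} (h : Coer Φ) (ω : ℝ) : (Φ ω).PosDef := by
  obtain ⟨h1, ε, hε, h2⟩ := h
  refine PosDef.of_dotProduct_mulVec_pos (h1 ω) fun x hx => ?_
  have k := h2 ω (WithLp.toLp 2 x)
  have k0 : 0 < ‖(WithLp.toLp 2 x : Eu n)‖ := by
    rw [norm_pos_iff]
    intro e
    exact hx (by simpa using congrArg WithLp.ofLp e)
  refine Complex.pos_iff.2 ⟨lt_of_lt_of_le (by positivity) k, ?_⟩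
  exact ((h1 ω).im_star_dotProduct_mulVec_self x).symm

theorem TM_sum (A : Mt n) :
    TM A = ∑ p : Fin n × Fin n, A p.1 p.2 • TM (Matrix.single p.1 p.2 1) := by
  conv_lhs => rw [Matrix.matrix_eq_sum_single A]
  rw [Fintype.sum_prod_type]
  simp only [TM, map_sum, ← map_smul, Matrix.smul_single, smul_eq_mul, mul_one]

theorem TM_bdd {Φ : ℝ → Mt n} (h : ∀ i j, ∃ C, ∀ ω, ‖Φ ω i j‖ ≤ C) :
    ∃ C, 0 < C ∧ ∀ ω, ‖TM (Φ ω)‖ ≤ C := by
  choose C hC using h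
  refine ⟨(∑ p : Fin n × Fin n, C p.1 p.2 * ‖TM (Matrix.single p.1 p.2 1)‖) + 1, ?_, fun ω => ?_⟩
  · have : 0 ≤ ∑ p : Fin n × Fin n, C p.1 p.2 * ‖TM (Matrix.single p.1 p.2 1)‖ :=
      Finset.sum_nonneg fun p _ => mul_nonneg ((norm_nonneg _).trans (hC _ _ 0)) (norm_nonneg _)
    linarith
  · rw [TM_sum]
    refine (norm_sum_le _ _).trans (le_trans (Finset.sum_le_sum fun p _ => ?_) (by linarith))
    rw [norm_smul]
    exact mul_le_mul_of_nonneg_right (hC _ _ _) (norm_nonneg _)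

theorem Coer.contr {Φ : ℝ → Mt n} (h : Coer Φ) (hb : ∀ i j, ∃ C, ∀ ω, ‖Φ ω i j‖ ≤ C) :
    ∃ c : ℂ, c ≠ 0 ∧ ∃ ρ : ℝ, ρ < 1 ∧ ∀ ω, ‖TM (1 - c • Φ ω)‖ ≤ ρ := by
  obtain ⟨_, ε, hε, h2⟩ := h
  obtain ⟨C, hC, h3⟩ := TM_bdd hb
  set c : ℝ := ε / C ^ 2 with hc
  have hc0 : 0 < c := by positivity
  refine ⟨c, by exact_mod_cast hc0.ne', Real.sqrt (max 0 (1 - c * ε)), ?_, fun ω => ?_⟩
  · rw [Real.sqrt_lt' one_pos, max_lt_iff]
    have : 0 < c * ε := by positivity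
    constructor <;> linarith
  · refine ContinuousLinearMap.opNorm_le_bound _ (Real.sqrt_nonneg _) fun v => ?_
    have e : TM (1 - (c : ℂ) • Φ ω) v = v - (c : ℂ) • TM (Φ ω) v := by
      rw [TM, map_sub, map_one, map_smul]
      rfl
    rw [e, ← Real.sqrt_sq (norm_nonneg v), ← Real.sqrt_mul (le_max_left _ _)]
    refine Real.le_sqrt_of_sq_le ?_
    rw [@norm_sub_sq ℂ, inner_smul_right, norm_smul]
    have k1 := h2 ω v
    rw [qf_eq] at k1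
    have k2 : ‖TM (Φ ω) v‖ ≤ C * ‖v‖ :=
      ((TM (Φ ω)).le_opNorm v).trans (mul_le_mul_of_nonneg_right (h3 ω) (norm_nonneg _))
    have k3 : ‖TM (Φ ω) v‖ ^ 2 ≤ (C * ‖v‖) ^ 2 := pow_le_pow_left₀ (norm_nonneg _) k2 2
    have k4 : c * C ^ 2 = ε := by rw [hc]; field_simp
    have k5 : (1 - c * ε) * ‖v‖ ^ 2 ≤ max 0 (1 - c * ε) * ‖v‖ ^ 2 :=
      mul_le_mul_of_nonneg_right (le_max_right _ _) (by positivity)
    simp only [RCLike.re_to_complex, Complex.re_ofReal_mul, Complex.norm_real, Real.norm_eq_abs,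
      abs_of_pos hc0]
    have k6 : (c * ‖TM (Φ ω) v‖) ^ 2 ≤ c * ε * ‖v‖ ^ 2 := by
      rw [mul_pow, ← k4]
      calc c ^ 2 * ‖TM (Φ ω) v‖ ^ 2 ≤ c ^ 2 * (C * ‖v‖) ^ 2 :=
            mul_le_mul_of_nonneg_left k3 (by positivity)
        _ = c * (c * C ^ 2) * ‖v‖ ^ 2 := by ring
    have k7 := mul_le_mul_of_nonneg_left k1 hc0.le
    nlinarith

theorem qf_smul (A : Mt n) (v : Eu n) (r : ℝ) : qf A ((r : ℂ) • v) = r ^ 2 * qf A v := by
  rw [qf_eq, qf_eq, map_smul, inner_smul_left, inner_smul_right, Complex.conj_ofReal,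
    Complex.re_ofReal_mul, Complex.re_ofReal_mul]
  ring

theorem coer_of_det {Φ : ℝ → Mt n} (hb : ∀ i j, ∃ C, ∀ ω, ‖Φ ω i j‖ ≤ C)
    (h1 : ∀ ω, (Φ ω).IsHermitian ∧ ∀ x : Fin n → ℂ, 0 ≤ (star x ⬝ᵥ Φ ω *ᵥ x).re)
    {δ : ℝ} (hδ : 0 < δ) (h2 : ∀ ω, δ ≤ (Φ ω).det.re) : Coer Φ := by
  refine ⟨fun ω => (h1 ω).1, ?_⟩
  choose C hC using hb
  let S1 : Set (Mt n) := Set.pi Set.univ fun i => Set.pi Set.univ fun j =>
    Metric.closedBall (0 : ℂ) (C i j)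
  have c1 : IsCompact S1 :=
    isCompact_univ_pi fun i => isCompact_univ_pi fun j => isCompact_closedBall _ _
  let S2 : Set (Mt n) := {A | Aᴴ = A} ∩ ((⋂ x : Fin n → ℂ, {A | 0 ≤ (star x ⬝ᵥ A *ᵥ x).re}) ∩
    {A | δ ≤ A.det.re})
  have c2 : IsClosed S2 := by
    refine (isClosed_eq (by fun_prop) continuous_id).inter
      ((isClosed_iInter fun x => isClosed_le continuous_const ?_).inter
        (isClosed_le continuous_const (by fun_prop)))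
    fun_prop
  have c3 := (c1.inter_right c2).prod (isCompact_sphere (0 : Eu n) 1)
  obtain ⟨ε, hε, h3⟩ := c3.exists_forall_le' (f := fun p => qf p.1 p.2) (a := 0)
    (by unfold qf; fun_prop) (by
      rintro ⟨A, v⟩ ⟨⟨-, a1, a2, a3⟩, hv⟩
      have a4 : A.PosSemidef := PosSemidef.of_dotProduct_mulVec_nonneg a1 fun x =>
        Complex.nonneg_iff.2 ⟨Set.mem_iInter.1 a2 x,
          (IsHermitian.im_star_dotProduct_mulVec_self a1 x).symm⟩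
      have a5 : A.PosDef := a4.posDef_iff_det_ne_zero.2 (by
        intro e
        have : δ ≤ A.det.re := a3
        rw [e] at this
        simp at this
        linarith)
      refine (Complex.pos_iff.1 (a5.dotProduct_mulVec_pos (x := v.ofLp) ?_)).1
      intro e
      have : v = 0 := by ext i; simp [e]
      simp [this] at hv)
  refine ⟨ε, hε, fun ω v => ?_⟩
  rcases eq_or_ne v 0 with rfl | hv
  · simp [qf]
  have hv' : 0 < ‖v‖ := norm_pos_iff.2 hv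
  have k := h3 (Φ ω, ((‖v‖⁻¹ : ℝ) : ℂ) • v) ⟨⟨fun i _ j _ => by simpa using hC i j ω,
    (h1 ω).1, Set.mem_iInter.2 (h1 ω).2, h2 ω⟩, by simp [norm_smul, hv'.ne']⟩
  rw [qf_smul] at k
  have k2 := mul_le_mul_of_nonneg_right k (sq_nonneg ‖v‖)
  refine k2.trans (le_of_eq ?_)
  field_simp

theorem Coer.conj {Φ X Y : ℝ → Mt n} (h : Coer Φ) (hY : ∀ i j, ∃ C, ∀ ω, ‖Y ω i j‖ ≤ C)
    (e : ∀ ω, Y ω * X ω = 1) : Coer (fun ω => (X ω)ᴴ * Φ ω * X ω) := by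
  obtain ⟨h1, ε, hε, h2⟩ := h
  obtain ⟨C, hC, h3⟩ := TM_bdd hY
  refine ⟨fun ω => isHermitian_conjTranspose_mul_mul _ (h1 ω), ε / C ^ 2, by positivity,
    fun ω v => ?_⟩
  have k1 : qf ((X ω)ᴴ * Φ ω * X ω) v = qf (Φ ω) (TM (X ω) v) := by
    simp only [qf, ofLp_toEuclideanCLM, star_mulVec, dotProduct_mulVec, vecMul_vecMul]
  have k2 : ‖v‖ ≤ C * ‖TM (X ω) v‖ := by
    have : v = TM (Y ω) (TM (X ω) v) := by
      rw [← ContinuousLinearMap.mul_apply, ← map_mul, e, map_one, ContinuousLinearMap.one_apply]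
    calc ‖v‖ = ‖TM (Y ω) (TM (X ω) v)‖ := by rw [← this]
      _ ≤ _ := ((TM (Y ω)).le_opNorm _).trans (mul_le_mul_of_nonneg_right (h3 ω) (norm_nonneg _))
  rw [k1]
  refine le_trans ?_ (h2 ω _)
  have k3 := pow_le_pow_left₀ (norm_nonneg _) k2 2
  calc ε / C ^ 2 * ‖v‖ ^ 2 ≤ ε / C ^ 2 * (C * ‖TM (X ω) v‖) ^ 2 :=
        mul_le_mul_of_nonneg_left k3 (by positivity)
    _ = _ := by field_simp

theorem Coer.lim {F Fa Fd : ℝ → Mt n} (h : Coer F) (e : ∀ ω, F ω = Fa ω + Fd ω)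
    (ha : ∀ i j, CC Set.univ fun ω => Fa ω i j) (hd : ∀ i j, DC Set.univ fun ω => Fd ω i j) :
    Coer Fd := by
  obtain ⟨h1, ε, hε, h2⟩ := h
  have hl : ∀ ω, Tendsto (fun k : ℕ => F (ω + k)) UU (𝓝 (Fd ω)) := by
    intro ω
    refine tendsto_pi_nhds.2 fun i => tendsto_pi_nhds.2 fun j => ?_
    have := ((ha i j).lim ω).add ((hd i j).lim ω)
    simpa [e] using this
  refine ⟨fun ω => ?_, ε, hε, fun ω v => ?_⟩
  · have k := ((by fun_prop : Continuous fun A : Mt n => Aᴴ).tendsto _).comp (hl ω)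
    refine tendsto_nhds_unique k ((hl ω).congr fun k => (h1 _).symm)
  · have k := ((by unfold qf; fun_prop : Continuous fun A : Mt n => qf A v).tendsto _).comp (hl ω)
    exact ge_of_tendsto' k fun k => h2 _ _

/-- matrix classes -/
def MC (S : Set ℝ) (Φ : ℝ → Mt n) : Prop := ∀ i j, Cl S fun ω => Φ ω i j

/-- absolutely continuous matrix class -/
def MA (Φ : ℝ → Mt n) : Prop := ∀ i j, CC Set.univ fun ω => Φ ω i j

theorem MC.mul {S1 S2 S3 : Set ℝ} (hS : ∀ a ∈ S1, ∀ b ∈ S2, a + b ∈ S3) {Φ Ψ : ℝ → Mt n}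
    (h1 : MC S1 Φ) (h2 : MC S2 Ψ) : MC S3 fun ω => Φ ω * Ψ ω := fun i j => by
  simp only [Matrix.mul_apply]
  exact Cl.sum _ fun k => (h1 i k).mul hS (h2 k j)

theorem MC.add {S : Set ℝ} {Φ Ψ : ℝ → Mt n} (h1 : MC S Φ) (h2 : MC S Ψ) :
    MC S fun ω => Φ ω + Ψ ω := fun i j => (h1 i j).add (h2 i j)

theorem MC.star {S S' : Set ℝ} (hS : ∀ a ∈ S, -a ∈ S') {Φ : ℝ → Mt n} (h : MC S Φ) :
    MC S' fun ω => (Φ ω)ᴴ := fun i j => (h j i).conj hS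

theorem MC.const {S : Set ℝ} (h : (0 : ℝ) ∈ S) (A : Mt n) : MC S fun _ => A :=
  fun _ _ => Cl.const _ (Or.inl h)

theorem MC.mono {S S' : Set ℝ} (hS : S ⊆ S') {Φ : ℝ → Mt n} (h : MC S Φ) : MC S' Φ :=
  fun i j => (h i j).mono hS

theorem MC.bdd {S : Set ℝ} {Φ : ℝ → Mt n} (h : MC S Φ) (i j : Fin n) :
    ∃ C, ∀ ω, ‖Φ ω i j‖ ≤ C := (h i j).bdd

theorem MC.pmul {Φ Ψ : ℝ → Mt n} (h1 : MC (Set.Ici 0) Φ) (h2 : MC (Set.Ici 0) Ψ) :
    MC (Set.Ici 0) fun ω => Φ ω * Ψ ω :=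
  h1.mul (fun _ ha _ hb => add_nonneg ha hb) h2

theorem MA.lmul {S : Set ℝ} {Φ Ψ : ℝ → Mt n} (h1 : MC S Φ) (h2 : MA Ψ) :
    MA fun ω => Φ ω * Ψ ω := fun i j => by
  simp only [Matrix.mul_apply]
  exact CC.sum _ fun k => (h1 i k).mul_CC (fun _ _ _ _ => Set.mem_univ _) (h2 k j)

theorem MA.rmul {S : Set ℝ} {Φ Ψ : ℝ → Mt n} (h1 : MA Φ) (h2 : MC S Ψ) :
    MA fun ω => Φ ω * Ψ ω := fun i j => by
  simp only [Matrix.mul_apply, mul_comm (Φ _ _ _)]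
  exact CC.sum _ fun k => (h2 k j).mul_CC (fun _ _ _ _ => Set.mem_univ _) (h1 i k)

theorem fact {Φ X N : ℝ → Mt n} (h : ∀ ω, (Φ ω).PosDef) (hX : MC (Set.Ici 0) X)
    (hN : MC (Set.Iio 0) N) (e : ∀ ω, Φ ω * X ω = 1 + N ω) :
    ∃ D : Mt n, D.PosDef ∧ (∀ ω, (X ω)ᴴ * Φ ω * X ω = D) ∧
      ∃ Y : ℝ → Mt n, MC (Set.Ici 0) Y ∧ ∀ ω, Y ω * X ω = 1 := by
  have a1 : MC (Set.Iic 0) fun ω => 1 + N ω :=
    (MC.const (by simp) 1).add (hN.mono Set.Iio_subset_Iic_self)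
  have a2 : MC (Set.Iic 0) fun ω => (X ω)ᴴ * (1 + N ω) :=
    (hX.star (S' := Set.Iic 0) (fun a ha => by simpa using ha)).mul
      (S1 := Set.Iic 0) (S2 := Set.Iic 0) (fun a ha b hb => add_nonpos (a := a) (b := b) ha hb) a1
  have a3 : MC (Set.Ici 0) fun ω => ((X ω)ᴴ * (1 + N ω))ᴴ :=
    a2.star (fun a ha => by simpa using ha)
  have a4 : ∀ ω, (X ω)ᴴ * (1 + N ω) = (X ω)ᴴ * Φ ω * X ω := fun ω => by rw [← e, mul_assoc]
  have a5 : ∀ ω, ((X ω)ᴴ * Φ ω * X ω)ᴴ = (X ω)ᴴ * Φ ω * X ω := fun ω =>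
    isHermitian_conjTranspose_mul_mul _ (h ω).1
  simp only [a4, a5] at a2 a3
  choose D hD using fun i j => uniq1 (a2 i j) (a3 i j)
  have b1 : ∀ ω, (X ω)ᴴ * Φ ω * X ω = Matrix.of D := fun ω => by
    ext i j
    exact hD i j ω
  have b2 : (Matrix.of D : Mt n).PosDef := by
    refine PosDef.of_dotProduct_mulVec_pos (by rw [← b1 0]; exact a5 0) fun x hx => ?_
    have : ∃ ω, X ω *ᵥ x ≠ 0 := by
      by_contra k
      push Not at k
      refine hx (funext fun i => ?_)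
      have k1 : Cl (Set.Iio 0) fun ω => ∑ j, N ω i j * x j :=
        Cl.sum _ fun j => (hN i j).mul (S2 := {0}) (fun a ha b hb => by
          simpa [Set.mem_singleton_iff.1 hb] using ha) (Cl.const _ (Or.inl rfl))
      have k2 := uniq2 k1 (a := -x i) fun ω => by
        have k3 : (1 + N ω) *ᵥ x = 0 := by rw [← e, ← mulVec_mulVec, k, mulVec_zero]
        have k4 := congrFun k3 i
        rw [add_mulVec, one_mulVec] at k4
        exact eq_neg_of_add_eq_zero_right k4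
      simpa using k2
    obtain ⟨ω, hω⟩ := this
    rw [← b1 ω]
    simpa only [star_mulVec, dotProduct_mulVec, vecMul_vecMul] using
      (h ω).dotProduct_mulVec_pos hω
  refine ⟨_, b2, b1, fun ω => (Matrix.of D : Mt n)⁻¹ * (1 + N ω)ᴴ,
    (MC.const (by simp) _).pmul (a1.star (fun a ha => by simpa using ha)), fun ω => ?_⟩
  beta_reduce
  rw [← e, conjTranspose_mul, (h ω).1.eq, mul_assoc, b1]
  exact Matrix.nonsing_inv_mul _ ((Matrix.isUnit_iff_isUnit_det _).1 b2.isUnit)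

end

end Pool.Agent.H34Z.SF
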