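import Pool.Agent.H34Z.SF.Gen

set_option autoImplicit false
set_option linter.unusedSectionVars false
set_option linter.deprecated false

/-! Plancherel for integrable functions, and the Wiener-Hopf equation on the line. -/

namespace Pool.Agent.H34Z.SF

open MeasureTheory Filter Topology FourierTransform SchwartzMap

noncomputable section

section Pl

variable {E : Type} [NormedAddCommGroup E] [InnerProductSpace ℂ E] [CompleteSpace E]

theorem flip_int (φ : 𝓢(ℝ, ℂ)) {y : ℝ → E} (hy : Integrable y) :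
    ∫ ξ, (𝓕 φ : 𝓢(ℝ, ℂ)) ξ • y ξ = ∫ x, φ x • 𝓕 y x := by
  simpa using! VectorFourier.integral_fourierIntegral_smul_eq_flip (L := innerₗ ℝ)
    Real.continuous_fourierChar continuous_inner φ.integrable hy

theorem cont_four {F : Type} [NormedAddCommGroup F] [NormedSpace ℂ F] {y : ℝ → F}
    (hy : Integrable y) : Continuous (𝓕 y) :=
  VectorFourier.fourierIntegral_continuous Real.continuous_fourierChar
    (L := innerₗ ℝ) continuous_inner hy

theorem test_eq {f g : ℝ → E} (hf : LocallyIntegrable f) (hg : LocallyIntegrable g)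
    (h : ∀ φ : 𝓢(ℝ, ℂ), ∫ x, φ x • f x = ∫ x, φ x • g x) : f =ᵐ[volume] g := by
  refine ae_eq_of_integral_contDiff_smul_eq hf hg ?_
  intro u h1 h2
  have h3 : HasCompactSupport (fun x => (u x : ℂ)) := h2.comp_left (g := fun r : ℝ => (r : ℂ)) rfl
  have h4 : ContDiff ℝ (⊤ : ℕ∞) (fun x => (u x : ℂ)) := Complex.ofRealCLM.contDiff.comp h1
  have := h (h3.toSchwartzMap h4)
  simpa using! this

theorem planch_a {y : ℝ → E} (hy : Integrable y) (h2 : MemLp y 2) :
    eLpNorm (𝓕 y) 2 volume = eLpNorm y 2 volume := by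
  set Y : Lp E 2 (volume : Measure ℝ) := h2.toLp y with hY
  have key : (𝓕 Y : Lp E 2 (volume : Measure ℝ)) =ᵐ[volume] 𝓕 y := by
    refine test_eq ((Lp.memLp _).locallyIntegrable (by norm_num))
      (cont_four hy).locallyIntegrable ?_
    intro φ
    have e := congrArg (fun T : 𝓢'(ℝ, E) => T φ) (Lp.fourier_toTemperedDistribution_eq Y)
    simp only [TemperedDistribution.fourier_apply, Lp.toTemperedDistribution_apply] at e
    rw [← e, ← flip_int φ hy]
    refine integral_congr_ae ?_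
    filter_upwards [h2.coeFn_toLp] with t h1
    rw [h1]
  rw [← eLpNorm_congr_ae key, ← eLpNorm_congr_ae h2.coeFn_toLp, ← Lp.enorm_def, ← Lp.enorm_def,
    ← ofReal_norm_eq_enorm, ← ofReal_norm_eq_enorm, Lp.norm_fourier_eq]

theorem planch_b {y : ℝ → E} (hy : Integrable y) (h2 : MemLp (𝓕 y) 2) : MemLp y 2 := by
  set Z : Lp E 2 (volume : Measure ℝ) := h2.toLp (𝓕 y) with hZ
  have key : (𝓕⁻ Z : Lp E 2 (volume : Measure ℝ)) =ᵐ[volume] y := by
    refine test_eq ((Lp.memLp _).locallyIntegrable (by norm_num)) hy.locallyIntegrable ?_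
    intro φ
    have e := congrArg (fun T : 𝓢'(ℝ, E) => T φ) (Lp.fourierInv_toTemperedDistribution_eq Z)
    simp only [TemperedDistribution.fourierInv_apply, Lp.toTemperedDistribution_apply] at e
    rw [← e]
    have e2 := flip_int (𝓕⁻ φ) hy
    rw [fourier_fourierInv_eq] at e2
    rw [e2]
    refine integral_congr_ae ?_
    filter_upwards [h2.coeFn_toLp] with t h1
    rw [h1]
  exact (Lp.memLp _).ae_eq key

theorem planch {y : ℝ → E} (hy : Integrable y) : eLpNorm (𝓕 y) 2 volume = eLpNorm y 2 volume := by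
  by_cases h : MemLp y 2
  · exact planch_a hy h
  · have h1 : ¬ MemLp (𝓕 y) 2 := fun h' => h (planch_b hy h')
    have e1 : eLpNorm y 2 volume = ⊤ := by
      by_contra k
      exact h ⟨hy.1, lt_top_iff_ne_top.2 k⟩
    have e2 : eLpNorm (𝓕 y) 2 volume = ⊤ := by
      by_contra k
      exact h1 ⟨(cont_four hy).aestronglyMeasurable, lt_top_iff_ne_top.2 k⟩
    rw [e1, e2]

end Pl

/-- the identity as an additive map -/
abbrev th : ℝ →+ ℝ := AddMonoidHom.id ℝ

theorem mth : Measurable th := measurable_id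

theorem four_eq {F : Type} [NormedAddCommGroup F] [NormedSpace ℂ F] (y : ℝ → F) (ξ : ℝ) :
    𝓕 y ξ = ∫ t, ch th (2 * Real.pi * ξ) t • y t := by
  rw [Real.fourier_real_eq_integral_exp_smul]
  congr 1
  funext t
  unfold ch
  congr 2
  simp only [AddMonoidHom.id_apply]
  push_cast
  ring

theorem rl {F : Type} [NormedAddCommGroup F] [NormedSpace ℂ F] (y : ℝ → F) :
    Tendsto (fun ω : ℝ => ∫ t, ch th ω t • y t) atTop (𝓝 0) := by
  have h1 : Tendsto (𝓕 y) (cocompact ℝ) (𝓝 0) := Real.zero_at_infty_fourier y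
  have h2 : Tendsto (fun ω : ℝ => ω / (2 * Real.pi)) atTop (cocompact ℝ) :=
    (tendsto_id.atTop_div_const (by positivity)).mono_right atTop_le_cocompact
  refine (h1.comp h2).congr ?_
  intro ω
  simp only [Function.comp_apply]
  rw [four_eq]
  congr 3
  field_simp

theorem uniq_L1 {y : ℝ → ℂ} (hy : Integrable y) (h : ∀ ω : ℝ, ∫ t, ch th ω t • y t = 0) :
    y =ᵐ[volume] 0 := by
  have e : 𝓕 y = 0 := by
    funext ξ
    rw [four_eq, h]
    rfl
  have := planch hy
  rw [e, eLpNorm_zero] at this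
  exact (eLpNorm_eq_zero_iff hy.1 (by norm_num)).1 this.symm

instance gdReal (E : Type) [NormedAddCommGroup E] [NormedSpace ℂ E] :
    Gd (volume : Measure ℝ) E where
  meas y := by
    refine Continuous.aestronglyMeasurable ?_
    let g : ℝ → C(ℝ, ℝ) := fun s => ⟨fun t => t - s, by fun_prop⟩
    have hg : Continuous g := by
      refine ContinuousMap.continuous_of_continuous_uncurry _ ?_
      change Continuous fun p : ℝ × ℝ => p.2 - p.1
      fun_prop
    exact Continuous.compMeasurePreservingLp (f := fun _ => y) continuous_const hg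
      (fun s => measurePreserving_sub_right volume s) (by simp)

section WH

variable {E : Type} [NormedAddCommGroup E] [InnerProductSpace ℂ E] [CompleteSpace E]

/-- the square norm -/
def nu (y : Lp E 1 (volume : Measure ℝ)) : ENNReal := eLpNorm y 2 volume

theorem nu_eq (y : Lp E 1 (volume : Measure ℝ)) :
    nu y = eLpNorm (fun ξ => ft volume th (2 * Real.pi * ξ) y) 2 volume := by
  unfold nu
  rw [← planch (L1.integrable_coeFn y)]
  congr 1
  funext ξ
  rw [four_eq, ft_apply _ _ mth]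

theorem nu_add (y z : Lp E 1 (volume : Measure ℝ)) : nu (y + z) ≤ nu y + nu z := by
  unfold nu
  rw [eLpNorm_congr_ae (Lp.coeFn_add y z)]
  exact eLpNorm_add_le (Lp.aestronglyMeasurable y) (Lp.aestronglyMeasurable z) (by norm_num)

theorem nu_mulm {φ : ℝ → ℂ} (h : Bd φ) (y : Lp E 1 (volume : Measure ℝ)) :
    nu (mulm volume φ y) ≤ nu y := by
  unfold nu
  refine eLpNorm_mono_ae ?_
  filter_upwards [coe_mulm volume h y] with t h1
  rw [h1, norm_smul]
  exact mul_le_of_le_one_left (norm_nonneg _) (h.2 t)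

theorem nu_mult (A : E →L[ℂ] E) {K : ℝ → E →L[ℂ] E} (hK : Integrable K) {r : ℝ} (hr : 0 ≤ r)
    (h : ∀ ω, ‖A + ∫ s, ch th ω s • K s‖ ≤ r) (y : Lp E 1 (volume : Measure ℝ)) :
    nu (act volume A y + conv volume K y) ≤ ENNReal.ofReal r * nu y := by
  rw [nu_eq, nu_eq]
  refine eLpNorm_le_mul_eLpNorm_of_ae_le_mul ?_ 2
  filter_upwards with ξ
  rw [map_add, ft_act _ _ mth, ft_conv _ _ mth _ hK,
    ← ContinuousLinearMap.add_apply]
  exact (ContinuousLinearMap.le_opNorm _ _).trans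
    (mul_le_mul_of_nonneg_right (h _) (norm_nonneg _))

theorem nu_smooth (b : 𝓢(ℝ, E →L[ℂ] E)) : ∃ β : ℝ, 0 ≤ β ∧ ∀ y : Lp E 1 (volume : Measure ℝ),
    nu (conv volume b y) ≤ ENNReal.ofReal (β * ‖y‖) := by
  have hb : MemLp (𝓕 b : 𝓢(ℝ, E →L[ℂ] E)) 2 volume := (𝓕 b).memLp 2 volume
  refine ⟨(eLpNorm (𝓕 b : 𝓢(ℝ, E →L[ℂ] E)) 2 volume).toReal, ENNReal.toReal_nonneg, fun y => ?_⟩
  rw [nu_eq, mul_comm _ ‖y‖, ENNReal.ofReal_mul (norm_nonneg _), ENNReal.ofReal_toReal hb.2.ne]
  refine eLpNorm_le_mul_eLpNorm_of_ae_le_mul ?_ 2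
  filter_upwards with ξ
  rw [ft_conv _ _ mth _ b.integrable, ← four_eq, mul_comm ‖y‖]
  refine (ContinuousLinearMap.le_opNorm _ _).trans ?_
  exact mul_le_mul_of_nonneg_left (norm_ft _ _ mth _ _) (norm_nonneg _)

theorem memLp_wp {η : ℝ} (hη : 0 < η) : MemLp (wp th η) 2 volume := by
  rw [memLp_two_iff_integrable_sq_norm (bd_wp th mth hη.le).1.aestronglyMeasurable]
  have h1 : IntegrableOn (fun t : ℝ => Real.exp (-(2 * η) * t)) (Set.Ici 0) :=
    (integrableOn_Ici_iff_integrableOn_Ioi).2 (exp_neg_integrableOn_Ioi 0 (by positivity))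
  rw [← integrable_indicator_iff measurableSet_Ici] at h1
  refine h1.congr ?_
  filter_upwards with t
  unfold wp
  by_cases k : 0 ≤ t
  · rw [Set.indicator_of_mem (Set.mem_Ici.2 k)]
    simp only [AddMonoidHom.id_apply, k, if_true, Complex.norm_real, Real.norm_eq_abs,
      Real.abs_exp]
    rw [← Real.exp_nat_mul]
    congr 1
    push_cast
    ring
  · rw [Set.indicator_of_notMem (by simpa using k)]
    simp [k]

theorem norm_wp_le {η : ℝ} (hη : 0 < η) : ∃ C : ℝ, 0 ≤ C ∧ ∀ (y : Lp E 1 (volume : Measure ℝ))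
    (a : ℝ), 0 ≤ a → nu y ≤ ENNReal.ofReal a → ‖mulm volume (wp th η) y‖ ≤ C * a := by
  have hm := memLp_wp hη
  refine ⟨(eLpNorm (wp th η) 2 volume).toReal, ENNReal.toReal_nonneg, fun y a ha hy => ?_⟩
  rw [Lp.norm_def, eLpNorm_congr_ae (coe_mulm volume (bd_wp th mth hη.le) y)]
  have h1 : eLpNorm (fun t => wp th η t • y t) 1 volume ≤
      eLpNorm (wp th η) 2 volume * eLpNorm y 2 volume :=
    eLpNorm_smul_le_mul_eLpNorm (Lp.aestronglyMeasurable y) hm.1
  have h2 : eLpNorm (fun t => wp th η t • y t) 1 volume ≤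
      eLpNorm (wp th η) 2 volume * ENNReal.ofReal a := h1.trans (mul_le_mul_right hy _)
  have h3 := ENNReal.toReal_mono (ENNReal.mul_ne_top hm.2.ne ENNReal.ofReal_ne_top) h2
  rwa [ENNReal.toReal_mul, ENNReal.toReal_ofReal ha] at h3

theorem exists_schwartz {F : Type} [NormedAddCommGroup F] [NormedSpace ℂ F] {K : ℝ → F}
    (hK : Integrable K) {ε : ℝ} (hε : 0 < ε) : ∃ b : 𝓢(ℝ, F), ∫ t, ‖K t - b t‖ ≤ ε := by
  obtain ⟨b, hb⟩ := (SchwartzMap.denseRange_toLpCLM (E := ℝ) (F := F) (p := 1) (μ := volume)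
    (by simp)).exists_dist_lt (hK.toL1 K) hε
  refine ⟨b, ?_⟩
  rw [L1.dist_eq_integral_dist] at hb
  refine le_of_eq_of_le ?_ hb.le
  refine integral_congr_ae ?_
  filter_upwards [hK.coeFn_toL1, b.coeFn_toLp 1 volume] with t h1 h2
  rw [dist_eq_norm, h1]
  congr 2
  exact h2.symm

theorem norm_four_le {Ω F : Type} [AddCommGroup Ω] [MeasurableSpace Ω] {ν : Measure Ω}
    [NormedAddCommGroup F] [NormedSpace ℂ F] (θ : Ω →+ ℝ) {K : Ω → F} (hK : Integrable K ν)
    (ω : ℝ) : ‖∫ s, ch θ ω s • K s ∂ν‖ ≤ ∫ s, ‖K s‖ ∂ν := by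
  refine norm_integral_le_of_norm_le hK.norm ?_
  filter_upwards with t
  rw [norm_smul, norm_ch, one_mul]

theorem wh (A : E →L[ℂ] E) (K : ℝ → E →L[ℂ] E) {σ : ℝ} (hσ : 0 < σ)
    (h1 : Integrable (wt th σ K)) (h2 : Integrable (wt th (-σ) K)) {ρ : ℝ} (hρ : ρ < 1)
    (hm : ∀ ω, ‖A + ∫ s, ch th ω s • K s‖ ≤ ρ) :
    ∃ σ1 σ2 : ℝ, 0 < σ2 ∧ σ2 ≤ σ1 ∧ σ1 ≤ σ ∧ ∀ h : Lp E 1 (volume : Measure ℝ),
      mulm volume (wp th 0) h = h → ∃ y z : Lp E 1 (volume : Measure ℝ), ∀ ω,
        (1 - A - ∫ s, ch th ω s • K s) (ft volume th ω (mulm volume (wp th σ2) y)) =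
          ft volume th ω (mulm volume (wp th σ1) h) -
            ft volume th ω (mulm volume (wn th σ2) z) := by
  have hρ0 : 0 ≤ ρ := (norm_nonneg _).trans (hm 0)
  set ε := (1 - ρ) / 4 with hε
  have hε0 : 0 < ε := by rw [hε]; linarith
  obtain ⟨σ1, s1, s2, s3⟩ := exists_small_wt volume th mth hσ h1 h2 hε0
  have hK0 : Integrable K := by
    have := integrable_wt volume th mth h1 h2 (s := 0) (by simpa using hσ.le)
    have e : wt th 0 K = K := by funext t; simp [wt]
    rwa [e] at this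
  have hK1 : Integrable (wt th σ1 K) :=
    integrable_wt volume th mth h1 h2 (by rw [abs_of_pos s1]; exact s2)
  have hK2 : Integrable (wt th (-(σ1 / 2)) K) :=
    integrable_wt volume th mth h1 h2 (by rw [abs_neg, abs_of_pos (by linarith)]; linarith)
  refine ⟨σ1, σ1 / 2, by linarith, by linarith, s2, fun h hP => ?_⟩
  refine solve volume th mth A K σ1 (σ1 / 2) (by linarith) (by linarith) hK0 hK1 hK2 h hP ?_
  set K' := wt th σ1 K with hK'
  have hA : ‖A‖ ≤ ρ := by
    have k1 : Tendsto (fun ω : ℝ => ‖A + ∫ s, ch th ω s • K s‖) atTop (𝓝 ‖A + 0‖) :=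
      (tendsto_const_nhds.add (rl K)).norm
    rw [add_zero] at k1
    exact le_of_tendsto' k1 hm
  have hm' : ∀ ω, ‖A + ∫ s, ch th ω s • K' s‖ ≤ ρ + ε := by
    intro ω
    have k1 := norm_four_le th (int_sub (F := E →L[ℂ] E) hK1 hK0) ω
    have k2 : ∫ s, ch th ω s • (K' s - K s) =
        (∫ s, ch th ω s • K' s) - ∫ s, ch th ω s • K s := by
      rw [← integral_sub (integrable_ch volume th mth ω hK1) (integrable_ch volume th mth ω hK0)]
      simp only [smul_sub]
    have k3 : A + ∫ s, ch th ω s • K' s =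
        (A + ∫ s, ch th ω s • K s) + ∫ s, ch th ω s • (K' s - K s) := by
      rw [k2]; abel
    rw [k3]
    exact (norm_add_le _ _).trans (add_le_add (hm ω) (k1.trans s3))
  obtain ⟨b, hb⟩ := exists_schwartz hK1 hε0
  obtain ⟨β, hβ0, hβ⟩ := nu_smooth b
  have he : Integrable (fun t => K' t - b t) := int_sub (F := E →L[ℂ] E) hK1 b.integrable
  have b0 := bd_wp th mth (le_refl (0 : ℝ))
  have hsplit : ∀ v, conv volume K' v = conv volume (fun t => K' t - b t) v + conv volume b v := by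
    intro v
    rw [← conv_add volume he b.integrable]
    simp
  set C := β * ‖h‖ / ε with hC
  have hC0 : 0 ≤ C := by positivity
  have hind : ∀ j : ℕ, ∃ u z, ((TT volume th A K') ^ j) h = u + z ∧ ‖u‖ ≤ (ρ + ε) ^ j * ‖h‖ ∧
      nu z ≤ ENNReal.ofReal (C * (ρ + 2 * ε) ^ j) := by
    intro j
    induction j with
    | zero =>
      refine ⟨h, 0, by simp, by simp, ?_⟩
      unfold nu
      rw [eLpNorm_congr_ae (Lp.coeFn_zero E 1 volume)]
      simp
    | succ j ih =>
      obtain ⟨u, z, e1, e2, e3⟩ := ih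
      refine ⟨mulm volume (wp th 0) (act volume A u + conv volume (fun t => K' t - b t) u),
        mulm volume (wp th 0) (conv volume b u + (act volume A z + conv volume K' z)), ?_, ?_, ?_⟩
      · rw [pow_succ', ContinuousLinearMap.mul_apply, e1]
        simp only [TT, ContinuousLinearMap.comp_apply, ContinuousLinearMap.add_apply]
        rw [← map_add]
        congr 1
        rw [map_add, map_add, hsplit u]
        abel
      · refine (norm_mulm volume b0 _).trans ((norm_add_le _ _).trans ?_)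
        have k1 := norm_act volume A u
        have k2 := norm_conv volume he u
        have k3 : ‖A‖ * ‖u‖ ≤ ρ * ‖u‖ := mul_le_mul_of_nonneg_right hA (norm_nonneg _)
        have k4 : (∫ t, ‖K' t - b t‖) * ‖u‖ ≤ ε * ‖u‖ :=
          mul_le_mul_of_nonneg_right hb (norm_nonneg _)
        have k5 : (ρ + ε) * ‖u‖ ≤ (ρ + ε) * ((ρ + ε) ^ j * ‖h‖) :=
          mul_le_mul_of_nonneg_left e2 (by linarith)
        rw [pow_succ']
        nlinarith
      · refine (nu_mulm b0 _).trans ((nu_add _ _).trans ?_)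
        have k1 := hβ u
        have k2 := nu_mult A hK1 (by linarith) hm' z
        have k3 : ENNReal.ofReal (ρ + ε) * nu z ≤
            ENNReal.ofReal ((ρ + ε) * (C * (ρ + 2 * ε) ^ j)) := by
          rw [ENNReal.ofReal_mul (by linarith)]
          exact mul_le_mul_right e3 _
        refine (add_le_add k1 (k2.trans k3)).trans ?_
        rw [← ENNReal.ofReal_add (by positivity) (by positivity)]
        apply ENNReal.ofReal_le_ofReal
        have k4 : (ρ + ε) ^ j ≤ (ρ + 2 * ε) ^ j := pow_le_pow_left₀ (by linarith) (by linarith) j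
        have k5 : β * ‖u‖ ≤ β * ((ρ + 2 * ε) ^ j * ‖h‖) :=
          mul_le_mul_of_nonneg_left (e2.trans (mul_le_mul_of_nonneg_right k4 (norm_nonneg _))) hβ0
        have k6 : β * ‖h‖ = ε * C := by rw [hC]; field_simp
        have k7 : β * ((ρ + 2 * ε) ^ j * ‖h‖) = ε * C * (ρ + 2 * ε) ^ j := by rw [← k6]; ring
        rw [pow_succ]
        nlinarith
  have hη : 0 < σ1 - σ1 / 2 := by linarith
  obtain ⟨C', hC'0, hC'⟩ := norm_wp_le (E := E) hη
  have g1 : Summable fun j : ℕ => (ρ + ε) ^ j * ‖h‖ :=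
    (summable_geometric_of_lt_one (by linarith) (by rw [hε]; linarith)).mul_right _
  have g2 : Summable fun j : ℕ => C' * (C * (ρ + 2 * ε) ^ j) :=
    ((summable_geometric_of_lt_one (by linarith) (by rw [hε]; linarith)).mul_left _).mul_left _
  refine (g1.add g2).of_nonneg_of_le (fun _ => norm_nonneg _) (fun j => ?_)
  obtain ⟨u, z, e1, e2, e3⟩ := hind j
  rw [e1, map_add]
  refine (norm_add_le _ _).trans (add_le_add ?_ ?_)
  · exact (norm_mulm volume (bd_wp th mth hη.le) u).trans e2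
  · exact hC' z _ (by positivity) e3

end WH

end

end Pool.Agent.H34Z.SF
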